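import Pool.Agent.ThS2.Defs

/-! # Module Ctx: basic identities -/

namespace ThS2
open Module Polynomial ThS

variable {K V : Type*} [Field K] [AddCommGroup V] [Module K V] {q : AF K V} {G Gi : Module.End K V}

theorem Ctx.dbl (c : Ctx q G Gi) (x : V) : x + x = 0 := by
  rw [← two_smul K x, c.two, zero_smul]

theorem Ctx.symm (c : Ctx q G Gi) (x y : V) : q.h y x = q.h x y := by
  have h : q.h x y + q.h x y = 0 := by rw [← two_mul, c.two, zero_mul]
  rw [q.symm x y, neg_eq_iff_add_eq_zero, h]

/-- `h (G x) y = h (G x) (G (Gi y)) = h x (Gi y)` -/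
theorem Ctx.adj (c : Ctx q G Gi) (x y : V) : q.h (G x) y = q.h x (Gi y) := by
  rw [← c.iso x, c.r]

private theorem ctx_adj' (c : Ctx q G Gi) (x y : V) : q.h (Gi x) y = q.h x (G y) := by
  rw [← c.iso (Gi x), c.r]

/-- `T = G + Gi` is self adjoint -/
theorem Ctx.adjT (c : Ctx q G Gi) (x y : V) : q.h ((G + Gi) x) y = q.h x ((G + Gi) y) := by
  rw [LinearMap.add_apply, LinearMap.add_apply, q.add_left, map_add, c.adj, ctx_adj' c, add_comm]

/-- all polynomials in `T` are self adjoint (induction on the polynomial) -/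
theorem Ctx.adjp (c : Ctx q G Gi) (f : K[X]) (x y : V) :
    q.h (aeval (G + Gi) f x) y = q.h x (aeval (G + Gi) f y) := by
  induction f using Polynomial.induction_on' generalizing x y with
  | add p r hp hr =>
    rw [map_add, LinearMap.add_apply, LinearMap.add_apply, q.add_left, map_add, hp, hr]
  | monomial n a =>
    rw [← C_mul_X_pow_eq_monomial, map_mul, aeval_C, map_pow, aeval_X, Module.End.mul_apply,
      Module.End.mul_apply, Module.algebraMap_end_apply, Module.algebraMap_end_apply, q.smul_left,
      map_smul, smul_eq_mul]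
    congr 1
    induction n generalizing x y with
    | zero => rfl
    | succ n ih =>
      rw [pow_succ', Module.End.mul_apply, Module.End.mul_apply, c.adjT, ih, ← Module.End.mul_apply,
        ← pow_succ, pow_succ', Module.End.mul_apply]

/-- `G` and `Gi` commute with `T`, so with all polynomials in `T` -/
theorem Ctx.comm (c : Ctx q G Gi) (f : K[X]) (x : V) :
    G (aeval (G + Gi) f x) = aeval (G + Gi) f (G x) := by
  have h : Commute G (G + Gi) := by
    show G * (G + Gi) = (G + Gi) * G
    ext z
    rw [Module.End.mul_apply, Module.End.mul_apply, LinearMap.add_apply, LinearMap.add_apply,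
      map_add, c.l, c.r]
  have h' : Commute G (aeval (G + Gi) f) := by
    induction f using Polynomial.induction_on' with
    | add p r hp hr =>
      rw [map_add]
      exact hp.add_right hr
    | monomial n a =>
      rw [← C_mul_X_pow_eq_monomial, map_mul, aeval_C, map_pow, aeval_X]
      exact (Algebra.commute_algebraMap_right a G).mul_right (h.pow_right n)
  have := congrArg (fun S : Module.End K V => S x) h'.eq
  exact this

/-- `h x (f (T) x) = 0`: enough for `f = X ^ n` (linearity); `n = 2 m`: `h (T ^ m x) (T ^ m x) = 0`; `n = 2 m + 1`: with `y = T ^ m x`,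
`h y (T y) = h y (G y) + h y (Gi y) = h y (G y) + h (G y) y = 0`. -/
theorem Ctx.altp (c : Ctx q G Gi) (f : K[X]) (x : V) : q.h x (aeval (G + Gi) f x) = 0 := by
  have h1 : ∀ y, q.h y ((G + Gi) y) = 0 := by
    intro y
    rw [LinearMap.add_apply, map_add, ← c.adj, c.symm y (G y), ← two_mul, c.two, zero_mul]
  have h2 : ∀ n, q.h x (((G + Gi) ^ n) x) = 0 := by
    intro n
    obtain ⟨m, rfl | rfl⟩ := Nat.even_or_odd' n
    · have e := c.adjp (X ^ m) x (((G + Gi) ^ m) x)
      rw [map_pow, aeval_X, ← Module.End.mul_apply, ← pow_add, ← two_mul] at e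
      rw [← e, q.alt]
    · have e := c.adjp (X ^ m) x ((G + Gi) (((G + Gi) ^ m) x))
      rw [map_pow, aeval_X, h1] at e
      rw [e, ← Module.End.mul_apply, ← Module.End.mul_apply, ← pow_succ, ← pow_add]
      congr 3
      omega
  induction f using Polynomial.induction_on' with
  | add p r hp hr => rw [map_add, LinearMap.add_apply, map_add, hp, hr, add_zero]
  | monomial n a =>
    rw [← C_mul_X_pow_eq_monomial, map_mul, aeval_C, map_pow, aeval_X, Module.End.mul_apply,
      Module.algebraMap_end_apply, map_smul, h2, smul_zero]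

/-- `N ^ 2 = G T` -/
theorem Ctx.nn (c : Ctx q G Gi) (x : V) : G (G x + x) + (G x + x) = G ((G + Gi) x) := by
  rw [LinearMap.add_apply, map_add, map_add, c.r, ← add_assoc, add_assoc (G (G x)), c.dbl, add_zero]

/-- `h (N x) y = h x (T y + N y)` -/
theorem Ctx.adjN (c : Ctx q G Gi) (x y : V) :
    q.h (G x + x) y = q.h x ((G + Gi) y + (G y + y)) := by
  rw [q.add_left, c.adj, ← map_add]
  congr 1
  rw [LinearMap.add_apply]
  have h := c.dbl (G y)
  have e : G y + Gi y + (G y + y) = (G y + G y) + (Gi y + y) := by abel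
  rw [e, h, zero_add]

/-- `h (N x) (N y) = h x (T y)` -/
theorem Ctx.hNN (c : Ctx q G Gi) (x y : V) : q.h (G x + x) (G y + y) = q.h x ((G + Gi) y) := by
  rw [q.add_left, map_add, map_add, c.iso, LinearMap.add_apply, map_add, c.adj]
  have h : q.h x y + q.h x y = 0 := by rw [← two_mul, c.two, zero_mul]
  have e : q.h x y + q.h x (Gi y) + (q.h x (G y) + q.h x y) =
      (q.h x y + q.h x y) + (q.h x (G y) + q.h x (Gi y)) := by ring
  rw [e, h, zero_add]

/-- `h x (N y) = h y (N x) + h y (T x)` -/
theorem Ctx.hN (c : Ctx q G Gi) (x y : V) :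
    q.h x (G y + y) = q.h y (G x + x) + q.h y ((G + Gi) x) := by
  rw [c.symm (G y + y) x, c.adjN, map_add, add_comm]

/-- an invariant subspace contains `f (T) x` -/
theorem Inv.poly {U : Submodule K V} (h : Inv G Gi U) (f : K[X]) {x : V} (hx : x ∈ U) :
    aeval (G + Gi) f x ∈ U := by
  have h2 : ∀ n, ((G + Gi) ^ n) x ∈ U := by
    intro n
    induction n with
    | zero => exact hx
    | succ n ih =>
      rw [pow_succ', Module.End.mul_apply, LinearMap.add_apply]
      exact U.add_mem (h.1 _ ih) (h.2 _ ih)
  induction f using Polynomial.induction_on' with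
  | add p r hp hr =>
    rw [map_add, LinearMap.add_apply]
    exact U.add_mem hp hr
  | monomial n a =>
    rw [← C_mul_X_pow_eq_monomial, map_mul, aeval_C, map_pow, aeval_X, Module.End.mul_apply,
      Module.algebraMap_end_apply]
    exact U.smul_mem _ (h2 n)

/-- a `G`-invariant subspace is `Gi`-invariant: `G` is injective, so `U` is the image of `U` (finite dimension) -/
theorem Ctx.inv_of [FiniteDimensional K V] (c : Ctx q G Gi) {U : Submodule K V}
    (h : ∀ x ∈ U, G x ∈ U) : Inv G Gi U := by
  refine ⟨h, fun x hx => ?_⟩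
  have hinj : Function.Injective (G.restrict h) := by
    intro a b hab
    have h1 : G a = G b := congrArg Subtype.val hab
    have h2 : (a : V) = b := by rw [← c.l a, h1, c.l]
    exact Subtype.ext h2
  obtain ⟨y, hy⟩ := (LinearMap.injective_iff_surjective.1 hinj) ⟨x, hx⟩
  have h1 : G (y : V) = x := congrArg Subtype.val hy
  rw [← h1, c.l]
  exact y.2

end ThS2
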