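import Pool.Agent.ThS2.Ctx

/-! # Module CycP: the dual pair generated by one vector -/

namespace ThS2
open Module Polynomial ThS

variable {K V : Type*} [Field K] [AddCommGroup V] [Module K V] {q : AF K V} {G Gi : Module.End K V}

private theorem CycP_key {p : K[X]} (hp : Irreducible p)
    {m : ℕ} (hm : 0 < m) {x : V} (h0 : aeval (G + Gi) (p ^ m) x = 0)
    (h1 : q.h (G x + x) (aeval (G + Gi) (p ^ (m - 1)) x) ≠ 0) (s : K[X])
    (hs : ∀ σ : K[X], q.h (G x + x) (aeval (G + Gi) (σ * s) x) = 0) : aeval (G + Gi) s x = 0 := by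
  by_cases hd : p ^ m ∣ s
  · obtain ⟨t, rfl⟩ := hd
    rw [mul_comm, map_mul, Module.End.mul_apply, h0, map_zero]
  · exfalso
    have hs0 : s ≠ 0 := by
      rintro rfl
      exact hd (dvd_zero _)
    have hf : FiniteMultiplicity p s := FiniteMultiplicity.of_prime_left hp.prime hs0
    obtain ⟨s', hs', hns⟩ := hf.exists_eq_pow_mul_and_not_dvd
    have hjm : multiplicity p s < m := by
      by_contra hj
      push Not at hj
      apply hd
      rw [hs']
      exact (pow_dvd_pow p hj).trans (dvd_mul_right _ _)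
    generalize multiplicity p s = j at hs' hjm
    have hc : IsCoprime s' (p ^ m) := by
      apply IsCoprime.pow_right
      exact ((EuclideanDomain.dvd_or_coprime p s' hp).resolve_left hns).symm
    obtain ⟨a, b, hab⟩ := hc
    apply h1
    have e : (a * p ^ (m - 1 - j)) * s = p ^ (m - 1) - b * p ^ (m - 1) * p ^ m := by
      have e1 : p ^ (m - 1) = p ^ (m - 1 - j) * p ^ j := by rw [← pow_add]; congr 1; omega
      rw [hs']
      calc (a * p ^ (m - 1 - j)) * (p ^ j * s') = (a * s') * (p ^ (m - 1 - j) * p ^ j) := by ring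
        _ = (1 - b * p ^ m) * (p ^ (m - 1 - j) * p ^ j) := by rw [← hab]; ring
        _ = _ := by rw [← e1]; ring
    have h2 := hs (a * p ^ (m - 1 - j))
    rw [e, map_sub, LinearMap.sub_apply, map_mul _ (b * p ^ (m - 1)) (p ^ m), Module.End.mul_apply, h0, map_zero, sub_zero] at h2
    exact h2

/-- `W = cs T x`, `W' = cs T (N x)`, `T = G + Gi`, `N x = G x + x`.
* isotropic: `h (f x) (g x) = h x (f g x) = 0` (`adjp`, `altp`), `h (f (N x)) (g (N x)) = h (N x) (f g (N x)) = 0` (`altp`);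
* key: if `s` is a polynomial with `h (N x) (σ s (T) x) = 0` for all `σ` then `s (T) x = 0`.  If `p ^ m ∣ s`, clear by `h0`.  Otherwise let
  `p ^ j` be the greatest common divisor of `s` and `p ^ m`, `j < m`: `a s + b p ^ m = p ^ j`; for `σ = a p ^ (m - 1 - j)` the vector `σ s (T) x` is
  `p ^ (m - 1) (T) x`, and the value is not `0` by `h1`, a contradiction.  (For example: `s = p ^ j s'` with `p ∤ s'`
  (`exists_eq_pow_mul_and_not_dvd`), `s'` and `p ^ m` are coprime.)
* `nd`: `h (σ (N x)) (s x) = h (N x) (σ s x)`; `nd'`: `h (s (N x)) (σ x) = h (N x) (σ s x)`, so `s x = 0` and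
  `s (N x) = N (s x) = 0` (`Ctx.comm`);
* `map`: `N (f x) = f (N x)`;
* `inv`: `G (f x) = f x + f (N x)`; `G (f (N x)) = f (N x) + f (N (N x))`, `N (N x) = G (T x) = T x + T (N x)` (`Ctx.nn`);
* `ne`: `x ∈ W`, `x ≠ 0` by `h1`. -/
theorem cycP (c : Ctx q G Gi) {U : Submodule K V} (hG : Inv G Gi U) {p : K[X]} (hp : Irreducible p)
    {m : ℕ} (hm : 0 < m) {x : V} (hx : x ∈ U) (h0 : aeval (G + Gi) (p ^ m) x = 0)
    (h1 : q.h (G x + x) (aeval (G + Gi) (p ^ (m - 1)) x) ≠ 0) :
    ∃ W W' : Submodule K V, W ≤ U ∧ W' ≤ U ∧ PP q G W W' := by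
  have hy : G x + x ∈ U := U.add_mem (hG.1 x hx) hx
  have hN : ∀ f : K[X], aeval (G + Gi) f (G x + x) = G (aeval (G + Gi) f x) + aeval (G + Gi) f x := by
    intro f
    rw [map_add, c.comm]
  have hiso : ∀ (z : V) (f g : K[X]), q.h (aeval (G + Gi) f z) (aeval (G + Gi) g z) = 0 := by
    intro z f g
    rw [c.adjp, ← Module.End.mul_apply, ← map_mul, c.altp]
  refine ⟨cs (G + Gi) x, cs (G + Gi) (G x + x), ?_, ?_, ?_, ?_, ?_, ?_, ?_, ?_, ?_⟩
  · intro z hz
    obtain ⟨f, rfl⟩ := mem_cs.1 hz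
    exact hG.poly f hx
  · intro z hz
    obtain ⟨f, rfl⟩ := mem_cs.1 hz
    exact hG.poly f hy
  · intro u hu w hw
    obtain ⟨f, rfl⟩ := mem_cs.1 hu
    obtain ⟨g, rfl⟩ := mem_cs.1 hw
    exact hiso x f g
  · intro u hu w hw
    obtain ⟨f, rfl⟩ := mem_cs.1 hu
    obtain ⟨g, rfl⟩ := mem_cs.1 hw
    exact hiso _ f g
  · intro u hu h
    obtain ⟨s, rfl⟩ := mem_cs.1 hu
    apply CycP_key hp hm h0 h1
    intro σ
    have := h _ (mem_cs.2 ⟨σ, rfl⟩)
    rw [c.adjp, ← Module.End.mul_apply, ← map_mul] at this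
    exact this
  · intro u hu h
    obtain ⟨s, rfl⟩ := mem_cs.1 hu
    have h2 : aeval (G + Gi) s x = 0 := by
      apply CycP_key hp hm h0 h1
      intro σ
      have := h _ (mem_cs.2 ⟨σ, rfl⟩)
      rw [c.adjp, ← Module.End.mul_apply, ← map_mul, mul_comm] at this
      exact this
    rw [hN, h2, map_zero, add_zero]
  · intro u hu
    obtain ⟨f, rfl⟩ := mem_cs.1 hu
    exact mem_cs.2 ⟨f, hN f⟩
  · have hW : ∀ u ∈ cs (G + Gi) x, G u ∈ cs (G + Gi) x ⊔ cs (G + Gi) (G x + x) := by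
      intro u hu
      obtain ⟨f, rfl⟩ := mem_cs.1 hu
      have e : G (aeval (G + Gi) f x) = aeval (G + Gi) f (G x + x) - aeval (G + Gi) f x := by rw [hN]; abel
      rw [e]
      exact Submodule.sub_mem _ (Submodule.mem_sup_right (mem_cs.2 ⟨f, rfl⟩)) (Submodule.mem_sup_left hu)
    have hW' : ∀ u ∈ cs (G + Gi) (G x + x), G u ∈ cs (G + Gi) x ⊔ cs (G + Gi) (G x + x) := by
      intro u hu
      obtain ⟨f, rfl⟩ := mem_cs.1 hu
      have hT : ∀ z, (G + Gi) z = aeval (G + Gi) (X : K[X]) z := fun z => by rw [aeval_X]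
      have e1 : G (G x + x) = G ((G + Gi) x) - (G x + x) := by rw [← c.nn]; abel
      have e2 : G ((G + Gi) x) = (G + Gi) (G x + x) - (G + Gi) x := by
        have e0 : G ((G + Gi) x) = (G + Gi) (G x) := by rw [hT x, c.comm, hT (G x)]
        rw [e0, map_add (G + Gi) (G x) x]; abel
      have e : G (aeval (G + Gi) f (G x + x)) = aeval (G + Gi) (f * X) (G x + x) - aeval (G + Gi) (f * X) x
          - aeval (G + Gi) f (G x + x) := by
        rw [c.comm, e1, e2, map_sub, map_sub, map_mul, aeval_X, Module.End.mul_apply, Module.End.mul_apply]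
      rw [e]
      exact Submodule.sub_mem _ (Submodule.sub_mem _ (Submodule.mem_sup_right (mem_cs.2 ⟨_, rfl⟩))
        (Submodule.mem_sup_left (mem_cs.2 ⟨_, rfl⟩))) (Submodule.mem_sup_right (mem_cs.2 ⟨_, rfl⟩))
    intro u hu
    obtain ⟨w, hw, w', hw', rfl⟩ := Submodule.mem_sup.1 hu
    rw [map_add]
    exact Submodule.add_mem _ (hW w hw) (hW' w' hw')
  · intro hb
    have hx0 : x ∈ cs (G + Gi) x := mem_cs.2 ⟨1, by rw [map_one]; rfl⟩
    rw [hb, Submodule.mem_bot] at hx0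
    apply h1
    rw [hx0, map_zero, map_zero, map_zero]

end ThS2
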