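import Pool.Agent.ThS.Defs

/-!
# Isometries of alternating forms in characteristic 2

`G` is an isometry of an alternating form with the inverse `Gi`, `T = G + Gi`, `N = G + 1`.
Aim: `G` has a hyperbolic system with the block `1`.
-/

namespace ThS2
open Module Polynomial ThS

variable {K V : Type*} [Field K] [AddCommGroup V] [Module K V]

/-- an isometry `G` with the inverse `Gi`, characteristic `2` -/
structure Ctx (q : AF K V) (G Gi : Module.End K V) : Prop where
  two : (2 : K) = 0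
  iso : ∀ x y, q.h (G x) (G y) = q.h x y
  l : ∀ x, Gi (G x) = x
  r : ∀ x, G (Gi x) = x

/-- invariance of a subspace under `G` and `Gi` -/
def Inv (G Gi : Module.End K V) (U : Submodule K V) : Prop := (∀ x ∈ U, G x ∈ U) ∧ ∀ x ∈ U, Gi x ∈ U

/-- the vectors `f (T) x` -/
noncomputable def cs (T : Module.End K V) (x : V) : Submodule K V :=
  LinearMap.range ((LinearMap.applyₗ x).comp (aeval T : K[X] →ₐ[K] Module.End K V).toLinearMap)

theorem mem_cs {T : Module.End K V} {x y : V} : y ∈ cs T x ↔ ∃ f : K[X], aeval T f x = y := by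
  rfl

/-- a dual pair of isotropic subspaces with `(G + 1) W ≤ W'` and `G`-invariant sum -/
structure PP (q : AF K V) (G : Module.End K V) (W W' : Submodule K V) : Prop where
  iso : ∀ x ∈ W, ∀ y ∈ W, q.h x y = 0
  iso' : ∀ x ∈ W', ∀ y ∈ W', q.h x y = 0
  nd : ∀ x ∈ W, (∀ y ∈ W', q.h y x = 0) → x = 0
  nd' : ∀ y ∈ W', (∀ x ∈ W, q.h y x = 0) → y = 0
  map : ∀ x ∈ W, G x + x ∈ W'
  inv : ∀ x ∈ W ⊔ W', G x ∈ W ⊔ W'
  ne : W ≠ ⊥

end ThS2
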