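import Pool.Agent.ThS2.Ctx

/-! # Module ExA: the second vector, even case -/

namespace ThS2
open Module Polynomial ThS

variable {K V : Type*} [Field K] [AddCommGroup V] [Module K V] {q : AF K V} {G Gi : Module.End K V}

/-- a vector of a nondegenerate subspace with prescribed products with linearly independent vectors: there is a linear map with these
values on the `v i`; it is given by a vector of `U` (`ThS.riesz`, up to the sign) -/
theorem pres [FiniteDimensional K V] {U : Submodule K V} (hU : q.ND U) {ι : Type*} [Fintype ι] [DecidableEq ι] {v : ι → V}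
    (hv : LinearIndependent K v) (hm : ∀ i, v i ∈ U) (s : ι → K) : ∃ y ∈ U, ∀ i, q.h y (v i) = s i := by
  set v' : ι → U := fun i => ⟨v i, hm i⟩ with hv'
  have hli : LinearIndependent K v' := by
    apply LinearIndependent.of_comp U.subtype
    exact hv
  set b := Basis.span hli with hb
  obtain ⟨g, hg⟩ := LinearMap.exists_extend (b.constr K s)
  have hgv : ∀ i, g (v' i) = s i := by
    intro i
    have h1 : (b i : U) = v' i := congrArg Subtype.val (Basis.span_apply hli i)
    rw [← h1]
    have h2 : g (b i : U) = (g ∘ₗ (Submodule.span K (Set.range v')).subtype) (b i) := rfl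
    rw [h2, hg, Basis.constr_basis]
  let B : U →ₗ[K] Module.Dual K U :=
    { toFun := fun x => (q.h (x : V)).comp U.subtype
      map_add' := fun x y => by
        apply LinearMap.ext
        intro z
        show q.h ((x : V) + (y : V)) (z : V) = q.h (x : V) (z : V) + q.h (y : V) (z : V)
        exact q.add_left _ _ _
      map_smul' := fun c x => by
        apply LinearMap.ext
        intro z
        show q.h (c • (x : V)) (z : V) = c • q.h (x : V) (z : V)
        exact q.smul_left _ _ _ }
  have hBi : Function.Injective B := by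
    rw [injective_iff_map_eq_zero]
    intro x hx
    apply Subtype.ext
    apply hU x x.2
    intro y hy
    have := congrArg (fun f => f ⟨y, hy⟩) hx
    exact this
  have hBs : Function.Surjective B :=
    (LinearMap.injective_iff_surjective_of_finrank_eq_finrank
      (Subspace.dual_finrank_eq (K := K) (V := U)).symm).1 hBi
  obtain ⟨y, hy⟩ := hBs g
  refine ⟨y, y.2, fun i => ?_⟩
  rw [← hgv i, ← hy]
  rfl

private theorem ExA_shift {T N : Module.End K V} (hc : ∀ z, T (N z) = N (T z)) {m : ℕ} {x : V}
    {a b : ℕ → K}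
    (hs : ∑ j ∈ Finset.range m, (a j • (T ^ j) x + b j • N ((T ^ j) x)) = 0) (k : ℕ) :
    ∑ j ∈ Finset.range m, (a j • (T ^ (k + j)) x + b j • N ((T ^ (k + j)) x)) = 0 := by
  have hck : ∀ (k : ℕ) (z : V), (T ^ k) (N z) = N ((T ^ k) z) := by
    intro k
    induction k with
    | zero => intro z; simp
    | succ k ih =>
      intro z
      rw [pow_succ]
      show (T ^ k) (T (N z)) = N ((T ^ k) (T z))
      rw [hc, ih]
  have h1 := congrArg (T ^ k) hs
  rw [map_zero, map_sum] at h1
  rw [← h1]
  refine Finset.sum_congr rfl fun j _ => ?_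
  rw [map_add, map_smul, map_smul, hck, pow_add]
  rfl

/-- `T = G + Gi`, `N z = G z + z`.  The `2 m` vectors `T ^ j x`, `N (T ^ j x)`, `j < m`, are linearly independent: let
`∑ a_j T ^ j x + ∑ b_j N (T ^ j x) = 0` and let `l` be minimal with `a_l ≠ 0` or `b_l ≠ 0`; apply `T ^ (m - 1 - l)`:
`a_l T ^ (m - 1) x + b_l N (T ^ (m - 1) x) = 0`; apply `N` (`N (N z) = G (T z)`): `a_l N (T ^ (m - 1) x) = 0`, so `a_l = 0` and then `b_l = 0`.
Now `pres`. -/
theorem exA [FiniteDimensional K V] (c : Ctx q G Gi) {U : Submodule K V} (hU : q.ND U)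
    (hG : Inv G Gi U) {m : ℕ} (hm : 0 < m) {x : V} (hx : x ∈ U) (h0 : ((G + Gi) ^ m) x = 0)
    (h1 : G (((G + Gi) ^ (m - 1)) x) + ((G + Gi) ^ (m - 1)) x ≠ 0) :
    ∃ y ∈ U, (∀ j, q.h y (((G + Gi) ^ j) x) = 0) ∧
      ∀ j, q.h y (G (((G + Gi) ^ j) x) + ((G + Gi) ^ j) x) = if j = m - 1 then 1 else 0 := by
  set T : Module.End K V := G + Gi with hT
  set N : Module.End K V := G + 1 with hN
  have hNz : ∀ z, N z = G z + z := fun z => rfl
  have hGT : ∀ z, G (T z) = T (G z) := fun z => by
    have := c.comm X z
    rw [aeval_X] at this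
    exact this
  have hc : ∀ z, T (N z) = N (T z) := fun z => by
    rw [hNz, hNz, map_add, hGT]
  have hNN : ∀ z, N (N z) = G (T z) := fun z => by
    rw [hNz, hNz]
    exact c.nn z
  have hbig : ∀ j, m ≤ j → (T ^ j) x = 0 := fun j hj => by
    obtain ⟨i, rfl⟩ := Nat.exists_eq_add_of_le hj
    rw [add_comm, pow_add]
    show (T ^ i) ((T ^ m) x) = 0
    rw [h0, map_zero]
  set w : V := (T ^ (m - 1)) x with hw
  have hTw : T w = 0 := by
    have : (T ^ (1 + (m - 1))) x = 0 := hbig _ (by omega)
    rw [pow_add, pow_one] at this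
    exact this
  have hmemT : ∀ j, (T ^ j) x ∈ U := fun j => by
    have := hG.poly (X ^ j) hx
    rw [map_pow, aeval_X] at this
    exact this
  have hmemN : ∀ j, N ((T ^ j) x) ∈ U := fun j => U.add_mem (hG.1 _ (hmemT j)) (hmemT j)
  -- linear independence
  have hcore : ∀ a b : ℕ → K,
      ∑ j ∈ Finset.range m, (a j • (T ^ j) x + b j • N ((T ^ j) x)) = 0 →
      ∀ l, l < m → a l = 0 ∧ b l = 0 := by
    intro a b hs l
    induction l using Nat.strong_induction_on with
    | _ l ih =>
      intro hl
      have h2 := ExA_shift hc hs (m - 1 - l)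
      rw [Finset.sum_eq_single l] at h2
      · have e : m - 1 - l + l = m - 1 := by omega
        rw [e, ← hw] at h2
        have h3 := congrArg N h2
        rw [map_add, map_smul, map_smul, hNN, hTw, map_zero, map_zero, smul_zero, add_zero] at h3
        have ha : a l = 0 := by
          rcases smul_eq_zero.1 h3 with h4 | h4
          · exact h4
          · exact absurd h4 h1
        rw [ha, zero_smul, zero_add] at h2
        refine ⟨ha, ?_⟩
        rcases smul_eq_zero.1 h2 with h4 | h4
        · exact h4
        · exact absurd h4 h1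
      · intro j hj hjl
        rw [Finset.mem_range] at hj
        rcases lt_or_gt_of_ne hjl with h4 | h4
        · obtain ⟨e1, e2⟩ := ih j h4 hj
          rw [e1, e2, zero_smul, zero_smul, add_zero]
        · rw [hbig _ (by omega), map_zero, smul_zero, smul_zero, add_zero]
      · intro h4
        rw [Finset.mem_range] at h4
        exact absurd hl h4
  set v : Fin m ⊕ Fin m → V := Sum.elim (fun j => (T ^ (j : ℕ)) x) (fun j => N ((T ^ (j : ℕ)) x))
    with hv
  have hli : LinearIndependent K v := by
    rw [Fintype.linearIndependent_iff]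
    intro g hg
    rw [Fintype.sum_sum_type] at hg
    set a : ℕ → K := fun j => if h : j < m then g (Sum.inl ⟨j, h⟩) else 0 with ha
    set b : ℕ → K := fun j => if h : j < m then g (Sum.inr ⟨j, h⟩) else 0 with hb
    have ha' : ∀ i : Fin m, a i = g (Sum.inl i) := fun i => by simp [ha]
    have hb' : ∀ i : Fin m, b i = g (Sum.inr i) := fun i => by simp [hb]
    have hs : ∑ j ∈ Finset.range m, (a j • (T ^ j) x + b j • N ((T ^ j) x)) = 0 := by
      rw [Finset.sum_range, Finset.sum_add_distrib, ← hg]
      congr 1
      · refine Finset.sum_congr rfl fun i _ => ?_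
        rw [ha']
        rfl
      · refine Finset.sum_congr rfl fun i _ => ?_
        rw [hb']
        rfl
    have h5 := hcore a b hs
    intro i
    rcases i with i | i
    · rw [← ha']
      exact (h5 i i.2).1
    · rw [← hb']
      exact (h5 i i.2).2
  obtain ⟨y, hy, hyv⟩ := pres hU hli (fun i => by
    rcases i with i | i
    · exact hmemT i
    · exact hmemN i) (Sum.elim (fun _ => 0) (fun j => if (j : ℕ) = m - 1 then 1 else 0))
  refine ⟨y, hy, fun j => ?_, fun j => ?_⟩
  · by_cases hj : j < m
    · exact hyv (Sum.inl ⟨j, hj⟩)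
    · rw [hbig j (by omega), map_zero]
  · by_cases hj : j < m
    · exact hyv (Sum.inr ⟨j, hj⟩)
    · rw [hbig j (by omega), if_neg (by omega), map_zero, add_zero, map_zero]

end ThS2
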