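import Pool.Agent.ThS2.ExA

/-! # Module ExB: the second vector, odd case -/

namespace ThS2
open Module Polynomial ThS

variable {K V : Type*} [Field K] [AddCommGroup V] [Module K V] {q : AF K V} {G Gi : Module.End K V}

private theorem ExB_shift {T N : Module.End K V} (hc : ∀ z, T (N z) = N (T z)) {m : ℕ} {x : V}
    {a b : ℕ → K}
    (hs : ∑ j ∈ Finset.range m, (a j • (T ^ j) x + b j • N ((T ^ j) x)) = 0) (k : ℕ) :
    ∑ j ∈ Finset.range m, (a j • (T ^ (k + j)) x + b j • N ((T ^ (k + j)) x)) = 0 := by
  have hck : ∀ (k : ℕ) (z : V), (T ^ k) (N z) = N ((T ^ k) z) := by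
    intro k
    induction k with
    | zero => intro z; simp
    | succ k ih =>
      intro z
      rw [pow_succ]
      show (T ^ k) (T (N z)) = N ((T ^ k) (T z))
      rw [hc, ih]
  have h1 := congrArg (T ^ k) hs
  rw [map_zero, map_sum] at h1
  rw [← h1]
  refine Finset.sum_congr rfl fun j _ => ?_
  rw [map_add, map_smul, map_smul, hck, pow_add]
  rfl

/-- `T = G + Gi`, `N z = G z + z`.  The `2 m - 1` vectors `T ^ j x`, `j < m`, and `N (T ^ j x)`, `j < m - 1`, are linearly independent: let
`∑ a_j T ^ j x + ∑ b_j N (T ^ j x) = 0` and let `l` be minimal with `a_l ≠ 0` or `b_l ≠ 0` (`b_(m-1) = 0`).  Apply `T ^ (m - 1 - l)`: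
`a_l T ^ (m - 1) x = 0` (`N (T ^ (m - 1) x) = 0`), so `a_l = 0`, `b_l ≠ 0`, `l ≤ m - 2`.  Apply `T ^ (m - 2 - l)` and then `N`
(`N (N z) = G (T z)`): `a_j T ^ (m - 2 - l + j) x`, `j > l`, is killed by `N`, the terms `b_j`, `j > l`, give `G T ^ (≥ m) x = 0`; so
`b_l G (T ^ (m - 1) x) = 0`, `b_l = 0`, a contradiction.  Now `pres`; for `j ≥ m - 1` both sides of the second formula are `0`. -/
theorem exB [FiniteDimensional K V] (c : Ctx q G Gi) {U : Submodule K V} (hU : q.ND U)
    (hG : Inv G Gi U) {m : ℕ} (hm : 0 < m) {x : V} (hx : x ∈ U) (h0 : ((G + Gi) ^ m) x = 0)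
    (h1 : G (((G + Gi) ^ (m - 1)) x) + ((G + Gi) ^ (m - 1)) x = 0) (h2 : ((G + Gi) ^ (m - 1)) x ≠ 0) :
    ∃ y ∈ U, (∀ j, q.h y (((G + Gi) ^ j) x) = if j = m - 1 then 1 else 0) ∧
      ∀ j, q.h y (G (((G + Gi) ^ j) x) + ((G + Gi) ^ j) x) = if j + 1 = m - 1 then 1 else 0 := by
  set T : Module.End K V := G + Gi with hT
  set N : Module.End K V := G + 1 with hN
  have hNz : ∀ z, N z = G z + z := fun z => rfl
  have hGT : ∀ z, G (T z) = T (G z) := fun z => by
    have := c.comm X z
    rw [aeval_X] at this
    exact this
  have hc : ∀ z, T (N z) = N (T z) := fun z => by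
    rw [hNz, hNz, map_add, hGT]
  have hNN : ∀ z, N (N z) = G (T z) := fun z => by
    rw [hNz, hNz]
    exact c.nn z
  have hbig : ∀ j, m ≤ j → (T ^ j) x = 0 := fun j hj => by
    obtain ⟨i, rfl⟩ := Nat.exists_eq_add_of_le hj
    rw [add_comm, pow_add]
    show (T ^ i) ((T ^ m) x) = 0
    rw [h0, map_zero]
  set w : V := (T ^ (m - 1)) x with hw
  have hNw : N w = 0 := h1
  have hGw : G w ≠ 0 := by
    intro h3
    rw [h3, zero_add] at h1
    exact h2 h1
  have hmemT : ∀ j, (T ^ j) x ∈ U := fun j => by
    have := hG.poly (X ^ j) hx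
    rw [map_pow, aeval_X] at this
    exact this
  have hmemN : ∀ j, N ((T ^ j) x) ∈ U := fun j => U.add_mem (hG.1 _ (hmemT j)) (hmemT j)
  -- linear independence
  have hcore : ∀ a b : ℕ → K, b (m - 1) = 0 →
      ∑ j ∈ Finset.range m, (a j • (T ^ j) x + b j • N ((T ^ j) x)) = 0 →
      ∀ l, l < m → a l = 0 ∧ b l = 0 := by
    intro a b hbm hs l
    induction l using Nat.strong_induction_on with
    | _ l ih =>
      intro hl
      have h3 := ExB_shift hc hs (m - 1 - l)
      rw [Finset.sum_eq_single l] at h3
      · have e : m - 1 - l + l = m - 1 := by omega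
        rw [e, ← hw, hNw, smul_zero, add_zero] at h3
        have ha : a l = 0 := by
          rcases smul_eq_zero.1 h3 with h4 | h4
          · exact h4
          · exact absurd h4 h2
        refine ⟨ha, ?_⟩
        by_cases hl2 : l = m - 1
        · rw [hl2]
          exact hbm
        · have hl3 : l + 1 < m := by omega
          have h5 := ExB_shift hc hs (m - 2 - l)
          rw [Finset.sum_eq_add l (l + 1) (by omega)] at h5
          · have e1 : m - 2 - l + l = m - 2 := by omega
            have e2 : m - 2 - l + (l + 1) = m - 1 := by omega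
            rw [e1, e2, ← hw, hNw, ha, zero_smul, zero_add, smul_zero, add_zero] at h5
            have h6 := congrArg N h5
            rw [map_add, map_smul, map_smul, hNN, hNw, smul_zero, add_zero, map_zero] at h6
            have e3 : T ((T ^ (m - 2)) x) = w := by
              have : T ((T ^ (m - 2)) x) = (T ^ (1 + (m - 2))) x := by
                rw [pow_add, pow_one]
                rfl
              rw [this, hw]
              congr 2
              omega
            rw [e3] at h6
            rcases smul_eq_zero.1 h6 with h4 | h4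
            · exact h4
            · exact absurd h4 hGw
          · intro j hj hjl
            rw [Finset.mem_range] at hj
            rcases lt_or_gt_of_ne hjl.1 with h4 | h4
            · obtain ⟨e1, e2⟩ := ih j h4 hj
              rw [e1, e2, zero_smul, zero_smul, add_zero]
            · have : l + 2 ≤ j := by omega
              rw [hbig _ (by omega), map_zero, smul_zero, smul_zero, add_zero]
          · intro h4
            rw [Finset.mem_range] at h4
            exact absurd hl h4
          · intro h4
            rw [Finset.mem_range] at h4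
            exact absurd hl3 h4
      · intro j hj hjl
        rw [Finset.mem_range] at hj
        rcases lt_or_gt_of_ne hjl with h4 | h4
        · obtain ⟨e1, e2⟩ := ih j h4 hj
          rw [e1, e2, zero_smul, zero_smul, add_zero]
        · rw [hbig _ (by omega), map_zero, smul_zero, smul_zero, add_zero]
      · intro h4
        rw [Finset.mem_range] at h4
        exact absurd hl h4
  set v : Fin m ⊕ Fin (m - 1) → V :=
    Sum.elim (fun j => (T ^ (j : ℕ)) x) (fun j => N ((T ^ (j : ℕ)) x)) with hv
  have hli : LinearIndependent K v := by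
    rw [Fintype.linearIndependent_iff]
    intro g hg
    rw [Fintype.sum_sum_type] at hg
    set a : ℕ → K := fun j => if h : j < m then g (Sum.inl ⟨j, h⟩) else 0 with ha
    set b : ℕ → K := fun j => if h : j < m - 1 then g (Sum.inr ⟨j, h⟩) else 0 with hb
    have ha' : ∀ i : Fin m, a i = g (Sum.inl i) := fun i => by simp [ha]
    have hb' : ∀ i : Fin (m - 1), b i = g (Sum.inr i) := fun i => by simp [hb]
    have hb0 : b (m - 1) = 0 := by simp [hb]
    have hs : ∑ j ∈ Finset.range m, (a j • (T ^ j) x + b j • N ((T ^ j) x)) = 0 := by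
      rw [Finset.sum_add_distrib, ← hg]
      congr 1
      · rw [Finset.sum_range]
        refine Finset.sum_congr rfl fun i _ => ?_
        rw [ha']
        rfl
      · have e : Finset.range m = Finset.range (m - 1 + 1) := by congr 1; omega
        rw [e, Finset.sum_range_succ, hb0, zero_smul, add_zero, Finset.sum_range]
        refine Finset.sum_congr rfl fun i _ => ?_
        rw [hb']
        rfl
    have h5 := hcore a b hb0 hs
    intro i
    rcases i with i | i
    · rw [← ha']
      exact (h5 i i.2).1
    · rw [← hb']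
      exact (h5 i (by have := i.2; omega)).2
  obtain ⟨y, hy, hyv⟩ := pres hU hli (fun i => by
    rcases i with i | i
    · exact hmemT i
    · exact hmemN i) (Sum.elim (fun j => if (j : ℕ) = m - 1 then 1 else 0)
      (fun j => if (j : ℕ) + 1 = m - 1 then 1 else 0))
  refine ⟨y, hy, fun j => ?_, fun j => ?_⟩
  · by_cases hj : j < m
    · exact hyv (Sum.inl ⟨j, hj⟩)
    · rw [hbig j (by omega), map_zero, if_neg (by omega)]
  · by_cases hj : j < m - 1
    · exact hyv (Sum.inr ⟨j, hj⟩)
    · rw [if_neg (by omega)]
      by_cases hj2 : j = m - 1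
      · rw [hj2]
        show q.h y (N w) = 0
        rw [hNw, map_zero]
      · rw [hbig j (by omega), map_zero, add_zero, map_zero]

end ThS2
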