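import Pool.Agent.ThS2.Ctx

/-! # Module LemN: a triangular argument -/

namespace ThS2
open Module Polynomial ThS

variable {K V : Type*} [Field K] [AddCommGroup V] [Module K V] {q : AF K V} {G Gi : Module.End K V}

private theorem lemN_aux (φ : V →ₗ[K] K) (T : Module.End K V) {b : V} {n : ℕ}
    (h : ∀ j, n ≤ j → φ ((T ^ j) b) = 0) (r : K[X]) : φ (aeval T (X ^ n * r) b) = 0 := by
  induction r using Polynomial.induction_on' with
  | add p s hp hs => rw [mul_add, map_add, LinearMap.add_apply, map_add, hp, hs, add_zero]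
  | monomial k c =>
    rw [← C_mul_X_pow_eq_monomial, mul_left_comm, ← pow_add, map_mul, aeval_C, map_pow, aeval_X,
      Module.End.mul_apply, Module.algebraMap_end_apply, map_smul, h _ (by omega), smul_zero]

private theorem lemN_aux2 (φ : V →ₗ[K] K) (T : Module.End K V) {b : V} {n : ℕ}
    (h : ∀ j, n + 1 ≤ j → φ ((T ^ j) b) = 0) (r : K[X]) :
    φ (aeval T (X ^ n * r) b) = r.coeff 0 * φ ((T ^ n) b) := by
  have e : X ^ n * r = X ^ (n + 1) * r.divX + C (r.coeff 0) * X ^ n := by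
    conv_lhs => rw [← divX_mul_X_add r]
    ring
  rw [e, map_add, LinearMap.add_apply, map_add, lemN_aux φ T h, zero_add, map_mul, aeval_C, map_pow,
    aeval_X, Module.End.mul_apply, Module.algebraMap_end_apply, map_smul, smul_eq_mul]

/-- `T = G + Gi`, `z = f (T) a + g (T) b`.  If `h a' (T ^ i z) = 0` and `h b' (T ^ i z) = 0` for all `i` then `z = 0`.
Claim: `X ^ j ∣ f` and `X ^ j ∣ g` for all `j ≤ mb`.  Induction on `j`; let `j < mb`, `f = X ^ j * f1`, `g = X ^ j * g1`.  With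
`i = ma - 1 - j`: `T ^ i z = T ^ (ma - 1) f1 (T) a + T ^ (ma - 1) g1 (T) b`; applying `h a'`: only the constant coefficient of `f1` contributes
(`Ta`; `hab` for all terms with `b`), so `f1.coeff 0 * h a' (T ^ (ma - 1) a) = 0`, `f1.coeff 0 = 0`, `f = X ^ (j + 1) * f2`.  With
`i = mb - 1 - j`: `T ^ i z = T ^ mb f2 (T) a + T ^ (mb - 1) g1 (T) b`; applying `h b'`: `hba` kills the first term, so
`g1.coeff 0 * h b' (T ^ (mb - 1) b) = 0` and `X ^ (j + 1) ∣ g`.
For `j = mb`: `g (T) b = 0`; if `ma = mb` then `f (T) a = 0`.  Otherwise `ma = mb + 1`, `f = X ^ mb * f1`; with `i = 0`: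
`h a' z = f1.coeff 0 * h a' (T ^ (ma - 1) a) = 0`, so `X ^ ma ∣ f` and `f (T) a = 0`. -/
theorem lemN (T : Module.End K V) {a b a' b' : V} {ma mb : ℕ} (h0 : 0 < ma) (h1 : mb ≤ ma) (h2 : ma ≤ mb + 1)
    (Ta : (T ^ ma) a = 0) (Tb : (T ^ mb) b = 0) (haa : q.h a' ((T ^ (ma - 1)) a) ≠ 0)
    (hbb : 0 < mb → q.h b' ((T ^ (mb - 1)) b) ≠ 0) (hab : ∀ j, ma ≤ j + 1 → q.h a' ((T ^ j) b) = 0)
    (hba : ∀ j, mb ≤ j → q.h b' ((T ^ j) a) = 0) (f g : K[X])
    (ha : ∀ i, q.h a' ((T ^ i) (aeval T f a + aeval T g b)) = 0)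
    (hb : ∀ i, q.h b' ((T ^ i) (aeval T f a + aeval T g b)) = 0) :
    aeval T f a + aeval T g b = 0 := by
  have Ta' : ∀ j, ma - 1 + 1 ≤ j → (T ^ j) a = 0 := by
    intro j hj
    have : T ^ j = T ^ (j - ma) * T ^ ma := by
      rw [← pow_add]
      congr 1
      omega
    rw [this, Module.End.mul_apply, Ta, map_zero]
  have Tb' : ∀ j, mb ≤ j → (T ^ j) b = 0 := by
    intro j hj
    have : T ^ j = T ^ (j - mb) * T ^ mb := by
      rw [← pow_add]
      congr 1
      omega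
    rw [this, Module.End.mul_apply, Tb, map_zero]
  have sh : ∀ (i j n : ℕ) (hij : i + j = n) (r : K[X]) (v : V),
      (T ^ i) (aeval T (X ^ j * r) v) = aeval T (X ^ n * r) v := by
    intro i j n hij r v
    rw [← hij, pow_add, mul_assoc, map_mul _ (X ^ i), map_pow, aeval_X, Module.End.mul_apply]
  -- the two steps
  have stepa : ∀ (j : ℕ) (f1 g1 : K[X]), j < ma → f = X ^ j * f1 → g = X ^ j * g1 →
      ∃ f2, f = X ^ (j + 1) * f2 := by
    intro j f1 g1 hj hf hg
    have e := ha (ma - 1 - j)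
    rw [map_add (T ^ _), map_add, hf, hg, sh _ j (ma - 1) (by omega), sh _ j (ma - 1) (by omega),
      lemN_aux2 (q.h a') T (fun i hi => by rw [Ta' i hi, map_zero]) f1,
      lemN_aux (q.h a') T (fun i hi => hab i (by omega)) g1, add_zero] at e
    have e1 : f1.coeff 0 = 0 := (mul_eq_zero.1 e).resolve_right haa
    refine ⟨f1.divX, ?_⟩
    rw [hf]
    conv_lhs => rw [← divX_mul_X_add f1, e1, C_0]
    ring
  have stepb : ∀ (j : ℕ) (f2 g1 : K[X]), j < mb → f = X ^ (j + 1) * f2 → g = X ^ j * g1 →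
      ∃ g2, g = X ^ (j + 1) * g2 := by
    intro j f2 g1 hj hf hg
    have e := hb (mb - 1 - j)
    rw [map_add (T ^ _), map_add, hf, hg, sh _ (j + 1) mb (by omega), sh _ j (mb - 1) (by omega),
      lemN_aux (q.h b') T hba f2, zero_add,
      lemN_aux2 (q.h b') T (fun i hi => by rw [Tb' i (by omega), map_zero]) g1] at e
    have e1 : g1.coeff 0 = 0 := (mul_eq_zero.1 e).resolve_right (hbb (by omega))
    refine ⟨g1.divX, ?_⟩
    rw [hg]
    conv_lhs => rw [← divX_mul_X_add g1, e1, C_0]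
    ring
  have claim : ∀ j, j ≤ mb → ∃ f1 g1, f = X ^ j * f1 ∧ g = X ^ j * g1 := by
    intro j
    induction j with
    | zero => exact fun _ => ⟨f, g, by rw [pow_zero, one_mul], by rw [pow_zero, one_mul]⟩
    | succ j ih =>
      intro hj
      obtain ⟨f1, g1, hf, hg⟩ := ih (by omega)
      obtain ⟨f2, hf2⟩ := stepa j f1 g1 (by omega) hf hg
      obtain ⟨g2, hg2⟩ := stepb j f2 g1 (by omega) hf2 hg
      exact ⟨f2, g2, hf2, hg2⟩
  obtain ⟨f1, g1, hf, hg⟩ := claim mb le_rfl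
  have hgb : aeval T g b = 0 := by
    rw [hg, mul_comm, map_mul, map_pow, aeval_X, Module.End.mul_apply, Tb, map_zero]
  rw [hgb, add_zero]
  by_cases hm : ma = mb
  · rw [hf, mul_comm, map_mul, map_pow, aeval_X, Module.End.mul_apply, ← hm, Ta, map_zero]
  · obtain ⟨f2, hf2⟩ := stepa mb f1 g1 (by omega) hf hg
    have : mb + 1 = ma := by omega
    rw [hf2, mul_comm, map_mul, map_pow, aeval_X, Module.End.mul_apply, this, Ta, map_zero]

end ThS2
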