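import Pool.Agent.ThS2.Defs

/-! # Module PairS: the hyperbolic system of a dual pair -/

namespace ThS2
open Module Polynomial ThS

variable {K V : Type*} [Field K] [AddCommGroup V] [Module K V] {q : AF K V} {G : Module.End K V}

private def pairS_map (q : AF K V) (A B : Submodule K V) : A →ₗ[K] Module.Dual K B where
  toFun a := (q.h a).comp B.subtype
  map_add' x y := by
    ext z
    exact q.add_left x y z
  map_smul' c x := by
    ext z
    exact q.smul_left c x z

/-- The maps `W' → Dual W`, `W → Dual W'` given by the form are injective (`nd`, `nd'`), so `W` and `W'` have the same finite dimension `k` and both maps are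
bijective.  Take a basis `w` of `W` and the vectors `w' i ∈ W'` with `h (w' i) (w j) = δ i j`; they are a basis of `W'` (not needed).
* `W ⊓ W' = ⊥` (a vector of it is orthogonal to `W'` by `iso'`), so `finrank (W ⊔ W') = 2 k`;
* `W ⊔ W'` is nondegenerate: if `x + y` (`x ∈ W`, `y ∈ W'`) is orthogonal to `W` and `W'` then `y = 0` and `x = 0`;
* `h (w' i) (G (w j)) = h (w' i) (w j) + h (w' i) (G (w j) + w j)` (characteristic `2`) and `G (w j) + w j ∈ W'`, so this is `δ i j`. -/
theorem pair_sys [FiniteDimensional K V] (h2 : (2 : K) = 0) {W W' : Submodule K V}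
    (h : PP q G W W') : ∃ k : ℕ, 0 < k ∧ finrank K (W ⊔ W' : Submodule K V) = 2 * k ∧ q.ND (W ⊔ W') ∧
      q.Sys (W ⊔ W') G (1 : Matrix (Fin k) (Fin k) K) := by
  have i1 : Function.Injective (pairS_map q W' W) := by
    rw [← LinearMap.ker_eq_bot, LinearMap.ker_eq_bot']
    intro y hy
    refine Subtype.ext (h.nd' y y.2 fun x hx => ?_)
    exact congrArg (fun f : Module.Dual K W => f ⟨x, hx⟩) hy
  have i2 : Function.Injective (pairS_map q W W') := by
    rw [← LinearMap.ker_eq_bot, LinearMap.ker_eq_bot']
    intro x hx
    refine Subtype.ext (h.nd x x.2 fun y hy => ?_)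
    refine q.swap_zero ?_
    exact congrArg (fun f : Module.Dual K W' => f ⟨y, hy⟩) hx
  have f1 : finrank K W' ≤ finrank K W := by
    have := LinearMap.finrank_le_finrank_of_injective i1
    rwa [Subspace.dual_finrank_eq] at this
  have f2 : finrank K W ≤ finrank K W' := by
    have := LinearMap.finrank_le_finrank_of_injective i2
    rwa [Subspace.dual_finrank_eq] at this
  have f3 : finrank K W' = finrank K (Module.Dual K W) := by
    rw [Subspace.dual_finrank_eq]
    omega
  set φ := LinearEquiv.ofInjectiveOfFinrankEq (pairS_map q W' W) i1 f3 with hφ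
  set b := finBasis K W with hb
  have hbot : W ⊓ W' = ⊥ := by
    rw [eq_bot_iff]
    intro x hx
    rw [Submodule.mem_bot]
    exact h.nd x hx.1 fun y hy => h.iso' y hy x hx.2
  have hw : ∀ i : Fin (finrank K W), ((φ.symm (b.coord i) : W') : V) ∈ W' := fun i => (φ.symm (b.coord i)).2
  have hd : ∀ i j : Fin (finrank K W), q.h ((φ.symm (b.coord i) : W') : V) (b j : V) =
      if i = j then 1 else 0 := by
    intro i j
    have e : φ (φ.symm (b.coord i)) (b j) = b.coord i (b j) := by rw [φ.apply_symm_apply]
    have e2 : φ (φ.symm (b.coord i)) (b j) = q.h ((φ.symm (b.coord i) : W') : V) (b j : V) := rfl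
    rw [← e2, e, Basis.coord_apply, Basis.repr_self, Finsupp.single_apply]
    simp only [eq_comm]
  refine ⟨finrank K W, ?_, ?_, ?_, fun i => (b i : V), fun i => ((φ.symm (b.coord i) : W') : V), ?_, ?_⟩
  · have : Nontrivial W := Submodule.nontrivial_iff_ne_bot.2 h.ne
    exact finrank_pos
  · have := Submodule.finrank_sup_add_finrank_inf_eq W W'
    rw [hbot, finrank_bot] at this
    omega
  · intro z hz hz0
    obtain ⟨x, hx, y, hy, rfl⟩ := Submodule.mem_sup.1 hz
    have hy0 : y = 0 := by
      refine h.nd' y hy fun u hu => ?_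
      have := hz0 u (Submodule.mem_sup_left hu)
      rwa [q.add_left, h.iso x hx u hu, zero_add] at this
    subst hy0
    have hx0 : x = 0 := by
      refine h.nd x hx fun v hv => ?_
      have := hz0 v (Submodule.mem_sup_right hv)
      rw [add_zero] at this
      exact q.swap_zero this
    rw [hx0, add_zero]
  · exact ⟨fun i => Submodule.mem_sup_left (b i).2, fun i => Submodule.mem_sup_right (hw i),
      fun i j => h.iso _ (b i).2 _ (b j).2, fun i j => h.iso' _ (hw i) _ (hw j), hd⟩
  · intro i j
    have e : G (b j : V) = (b j : V) + (G (b j : V) + (b j : V)) := by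
      have : (b j : V) + (b j : V) = 0 := by rw [← two_smul K, h2, zero_smul]
      rw [add_comm (G (b j : V)), ← add_assoc, this, zero_add]
    show q.h _ (G (b j : V)) = _
    rw [e, map_add, h.iso' _ (hw i) _ (h.map _ (b j).2), add_zero, hd, Matrix.one_apply]

end ThS2
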