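import Pool.Agent.ThS2.Ctx
import Pool.Agent.ThS.Spa

/-! # Module PerpS: orthogonal complements -/

namespace ThS2
open Module Polynomial ThS

variable {K V : Type*} [Field K] [AddCommGroup V] [Module K V] {q : AF K V} {G Gi : Module.End K V}

/-- `D = {x ∈ U | ∀ y ∈ C, h y x = 0}`.  For `u ∈ U` there is `b ∈ C` with `h u x = h b x` for all `x ∈ C` (`ThS.riesz`), so `u - b ∈ D`: `U = C ⊔ D`,
and `C ⊓ D = ⊥` as `C` is nondegenerate.  `D` is nondegenerate (a vector of `D` orthogonal to `D` is orthogonal to `C ⊔ D = U`) and invariant: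
`h y (G x) = h (Gi y) x` and `Gi y ∈ C` for `y ∈ C`. -/
theorem perp_split [FiniteDimensional K V] (c : Ctx q G Gi) {U C : Submodule K V} (hU : q.ND U)
    (hG : Inv G Gi U) (hC : C ≤ U) (hCN : q.ND C) (hCG : Inv G Gi C) :
    ∃ D : Submodule K V, D ≤ U ∧ q.ND D ∧ Inv G Gi D ∧ (∀ x ∈ C, ∀ y ∈ D, q.h x y = 0) ∧
      finrank K U = finrank K C + finrank K D := by
  set D : Submodule K V := U ⊓ ⨅ y : C, LinearMap.ker (q.h y) with hD
  have mD : ∀ {x : V}, x ∈ D ↔ x ∈ U ∧ ∀ y ∈ C, q.h y x = 0 := by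
    intro x
    rw [hD, Submodule.mem_inf, Submodule.mem_iInf]
    simp only [LinearMap.mem_ker, Subtype.forall]
  have hdec : ∀ u ∈ U, ∃ b ∈ C, u - b ∈ D := by
    intro u hu
    obtain ⟨b, hb, h⟩ := riesz q hCN (q.h u)
    refine ⟨b, hb, mD.2 ⟨U.sub_mem hu (hC hb), fun y hy => ?_⟩⟩
    rw [map_sub, c.symm u y, c.symm b y, h y hy, sub_self]
  have hbot : C ⊓ D = ⊥ := by
    rw [eq_bot_iff]
    intro x hx
    rw [Submodule.mem_bot]
    refine hCN x hx.1 fun y hy => ?_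
    rw [c.symm]
    exact (mD.1 hx.2).2 y hy
  have hsup : C ⊔ D = U := by
    refine le_antisymm (sup_le hC inf_le_left) fun u hu => ?_
    obtain ⟨b, hb, h⟩ := hdec u hu
    rw [← add_sub_cancel b u]
    exact Submodule.add_mem _ (Submodule.mem_sup_left hb) (Submodule.mem_sup_right h)
  refine ⟨D, inf_le_left, ?_, ⟨?_, ?_⟩, fun x hx y hy => (mD.1 hy).2 x hx, ?_⟩
  · intro x hx h
    refine hU x (mD.1 hx).1 fun y hy => ?_
    obtain ⟨b, hb, hyb⟩ := hdec y hy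
    have e : y = b + (y - b) := (add_sub_cancel b y).symm
    rw [e, map_add, h _ hyb, add_zero, c.symm]
    exact (mD.1 hx).2 b hb
  · intro x hx
    refine mD.2 ⟨hG.1 x (mD.1 hx).1, fun y hy => ?_⟩
    have e : q.h y (G x) = q.h (Gi y) x := by
      rw [← c.iso (Gi y) x, c.r]
    rw [e]
    exact (mD.1 hx).2 _ (hCG.2 y hy)
  · intro x hx
    refine mD.2 ⟨hG.2 x (mD.1 hx).1, fun y hy => ?_⟩
    rw [← c.adj]
    exact (mD.1 hx).2 _ (hCG.1 y hy)
  · have := Submodule.finrank_sup_add_finrank_inf_eq C D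
    rw [hbot, finrank_bot, hsup] at this
    omega

/-- the union of two orthogonal systems (`ThS.hyp_sum`); `h (w' i) (G (v j)) = 0` since `G (v j) ∈ D`.  Then reindex by
`finSumFinEquiv` (`AF.Sys.reindex`). -/
theorem sys_sum {U C D : Submodule K V} (hC : C ≤ U) (hD : D ≤ U)
    (hCD : ∀ x ∈ C, ∀ y ∈ D, q.h x y = 0) (hCG : ∀ x ∈ C, G x ∈ C) (hDG : ∀ x ∈ D, G x ∈ D) {k l : ℕ}
    (h1 : q.Sys C G (1 : Matrix (Fin k) (Fin k) K)) (h2 : q.Sys D G (1 : Matrix (Fin l) (Fin l) K)) :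
    q.Sys U G (1 : Matrix (Fin (k + l)) (Fin (k + l)) K) := by
  obtain ⟨w, w', hw, ha⟩ := h1
  obtain ⟨v, v', hv, hb⟩ := h2
  have h := hyp_sum q hC hD hCD hw hv
  have hs : q.Sys U G (1 : Matrix (Fin k ⊕ Fin l) (Fin k ⊕ Fin l) K) := by
    refine ⟨_, _, h, fun i j => ?_⟩
    rcases i with i | i <;> rcases j with j | j
    · rw [Sum.elim_inl, Sum.elim_inl, ha, Matrix.one_apply, Matrix.one_apply]
      simp only [Sum.inl.injEq]
    · rw [Sum.elim_inl, Sum.elim_inr, hCD _ (hw.mem' i) _ (hDG _ (hv.mem j)),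
        Matrix.one_apply_ne (by simp)]
    · rw [Sum.elim_inr, Sum.elim_inl, q.swap_zero (hCD _ (hCG _ (hw.mem j)) _ (hv.mem' i)),
        Matrix.one_apply_ne (by simp)]
    · rw [Sum.elim_inr, Sum.elim_inr, hb, Matrix.one_apply, Matrix.one_apply]
      simp only [Sum.inr.injEq]
  have := hs.reindex finSumFinEquiv
  rw [Matrix.reindex_apply, Matrix.submatrix_one_equiv] at this
  exact this

end ThS2
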