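import Pool.Agent.ThS2.StepEx
import Pool.Agent.ThS2.PairS
import Pool.Agent.ThS2.PerpS
import Pool.Agent.ThS.Main

/-! # The main theorem in characteristic 2 -/

namespace ThS2
open Module Polynomial ThS Matrix

variable {K V : Type*} [Field K] [AddCommGroup V] [Module K V] {q : AF K V} {G Gi : Module.End K V}

/-- Every isometry in characteristic `2` has a hyperbolic system with the block `1`. -/
theorem sys_one [FiniteDimensional K V] (c : Ctx q G Gi) (d : ℕ) :
    ∀ (U : Submodule K V), q.ND U → Inv G Gi U → finrank K U ≤ d →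
      ∃ n, finrank K U = 2 * n ∧ q.Sys U G (1 : Matrix (Fin n) (Fin n) K) := by
  induction d with
  | zero =>
    intro U hU hG hd
    refine ⟨0, by omega, Fin.elim0, Fin.elim0, ⟨fun i => i.elim0, fun i => i.elim0, fun i => i.elim0,
      fun i => i.elim0, fun i => i.elim0⟩, fun i => i.elim0⟩
  | succ d ih =>
    intro U hU hG hd
    by_cases hne : U = ⊥
    · refine ⟨0, by rw [hne, finrank_bot], Fin.elim0, Fin.elim0, ⟨fun i => i.elim0, fun i => i.elim0,
        fun i => i.elim0, fun i => i.elim0, fun i => i.elim0⟩, fun i => i.elim0⟩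
    · obtain ⟨W, W', hW, hW', hP⟩ := step_ex c hU hG hne
      obtain ⟨k, hk, hf, hCN, hs⟩ := pair_sys c.two hP
      have hC : W ⊔ W' ≤ U := sup_le hW hW'
      have hCG : Inv G Gi (W ⊔ W') := c.inv_of hP.inv
      obtain ⟨D, hD, hDN, hDG, hCD, hfr⟩ := perp_split c hU hG hC hCN hCG
      obtain ⟨l, hl, hs'⟩ := ih D hDN hDG (by omega)
      exact ⟨k + l, by omega, sys_sum hC hD hCD hCG.1 hDG.1 hs hs'⟩

section

variable {n : ℕ}

theorem ctx_of (h2 : (2 : K) = 0) (g : symplecticGroup (Fin n) K) :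
    Ctx (hS K n) (Matrix.mulVecLin (g : Matrix (Fin n ⊕ Fin n) (Fin n ⊕ Fin n) K))
      (Matrix.mulVecLin ((g⁻¹ : symplecticGroup (Fin n) K) : Matrix (Fin n ⊕ Fin n) (Fin n ⊕ Fin n) K)) where
  two := h2
  iso := fun x y => (sp_iso g).2 x Submodule.mem_top y Submodule.mem_top
  l := fun x => by
    rw [Matrix.mulVecLin_apply, Matrix.mulVecLin_apply, Matrix.mulVec_mulVec]
    have h : ((g⁻¹ : symplecticGroup (Fin n) K) : Matrix (Fin n ⊕ Fin n) (Fin n ⊕ Fin n) K) *
        (g : Matrix (Fin n ⊕ Fin n) (Fin n ⊕ Fin n) K) = ((g⁻¹ * g : symplecticGroup (Fin n) K) :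
          Matrix (Fin n ⊕ Fin n) (Fin n ⊕ Fin n) K) := rfl
    rw [h, inv_mul_cancel]
    exact Matrix.one_mulVec x
  r := fun x => by
    rw [Matrix.mulVecLin_apply, Matrix.mulVecLin_apply, Matrix.mulVec_mulVec]
    have h : (g : Matrix (Fin n ⊕ Fin n) (Fin n ⊕ Fin n) K) *
        ((g⁻¹ : symplecticGroup (Fin n) K) : Matrix (Fin n ⊕ Fin n) (Fin n ⊕ Fin n) K) =
          ((g * g⁻¹ : symplecticGroup (Fin n) K) : Matrix (Fin n ⊕ Fin n) (Fin n ⊕ Fin n) K) := rfl
    rw [h, mul_inv_cancel]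
    exact Matrix.one_mulVec x

/-- The main theorem for symplectic groups in characteristic 2. -/
theorem main_S2 [Finite K] (h2 : (2 : K) = 0) (hn : 3 ≤ n) :
    ∃ x : symplecticGroup (Fin n) K, ∀ g : symplecticGroup (Fin n) K,
      ∃ r r' : symplecticGroup (Fin n) K, g = r * x * r⁻¹ * (r' * x * r'⁻¹) := by
  obtain ⟨f, B, hfm, hfi, hfn, hf0, hfB, hB⟩ := ThQ.seed_ex (K := K) hn
  have hC : IsUnit (ThU.comp f n).det := by
    rw [← hfB]
    exact (Matrix.isUnit_iff_isUnit_det _).1 B.isUnit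
  refine ⟨mS K n B, fun g => ?_⟩
  have hfr : finrank K (⊤ : Submodule K (Fin n ⊕ Fin n → K)) = 2 * n := by
    rw [finrank_top, Module.finrank_fintype_fun_eq_card, Fintype.card_sum, Fintype.card_fin]
    ring
  obtain ⟨n', h1, h⟩ := sys_one (ctx_of h2 g) _ ⊤ hS_ND ⟨fun _ _ => Submodule.mem_top,
    fun _ _ => Submodule.mem_top⟩ le_rfl
  obtain rfl : n' = n := by omega
  exact prod_of_sysS hfB hB g h (fac_one hC)

/-- The conclusion for the quotient by the center (which is trivial in this case). -/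
theorem quotS2 [Finite K] (h2 : (2 : K) = 0) (hn : 3 ≤ n) :
    ∃ g : symplecticGroup (Fin n) K ⧸ Subgroup.center (symplecticGroup (Fin n) K),
      ∀ z : symplecticGroup (Fin n) K ⧸ Subgroup.center (symplecticGroup (Fin n) K),
        ∃ x y : symplecticGroup (Fin n) K ⧸ Subgroup.center (symplecticGroup (Fin n) K),
          IsConj g x ∧ IsConj g y ∧ x * y = z := by
  obtain ⟨x, h⟩ := main_S2 (K := K) h2 hn
  refine ⟨QuotientGroup.mk x, fun g => ?_⟩
  obtain ⟨g, rfl⟩ := QuotientGroup.mk_surjective g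
  obtain ⟨r, r', hg⟩ := h g
  refine ⟨QuotientGroup.mk (r * x * r⁻¹), QuotientGroup.mk (r' * x * r'⁻¹), ?_, ?_, ?_⟩
  · rw [isConj_iff]
    exact ⟨QuotientGroup.mk r, rfl⟩
  · rw [isConj_iff]
    exact ⟨QuotientGroup.mk r', rfl⟩
  · rw [hg]
    rfl

/-- Both characteristics. -/
theorem quotS_all [Finite K] (hn : 3 ≤ n) :
    ∃ g : symplecticGroup (Fin n) K ⧸ Subgroup.center (symplecticGroup (Fin n) K),
      ∀ z : symplecticGroup (Fin n) K ⧸ Subgroup.center (symplecticGroup (Fin n) K),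
        ∃ x y : symplecticGroup (Fin n) K ⧸ Subgroup.center (symplecticGroup (Fin n) K),
          IsConj g x ∧ IsConj g y ∧ x * y = z := by
  by_cases h2 : (2 : K) = 0
  · exact quotS2 h2 hn
  · exact quotS h2 hn

end

end ThS2
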