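import Pool.Agent.ThS2.ExB
import Pool.Agent.ThS2.LemN

/-! # Module PairB: the dual pair of two vectors, odd case -/

namespace ThS2
open Module Polynomial ThS

variable {K V : Type*} [Field K] [AddCommGroup V] [Module K V] {q : AF K V} {G Gi : Module.End K V}

private def Cl (T : Module.End K V) (S : Submodule K V) : Prop := ∀ (f : K[X]), ∀ z ∈ S, aeval T f z ∈ S

private theorem cl_cs (T : Module.End K V) (u : V) : Cl T (cs T u) := by
  rintro f z ⟨g, rfl⟩
  refine ⟨f * g, ?_⟩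
  show aeval T (f * g) u = aeval T f (aeval T g u)
  rw [map_mul, Module.End.mul_apply]

private theorem cl_sup {T : Module.End K V} {S S' : Submodule K V} (h : Cl T S) (h' : Cl T S') :
    Cl T (S ⊔ S') := by
  intro f z hz
  obtain ⟨a, ha, b, hb, rfl⟩ := Submodule.mem_sup.1 hz
  rw [map_add]
  exact Submodule.add_mem_sup (h f a ha) (h' f b hb)

private theorem self_cs (T : Module.End K V) (u : V) : u ∈ cs T u := by
  refine ⟨1, ?_⟩
  show aeval T 1 u = u
  rw [map_one, Module.End.one_apply]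

private theorem cl_pow {T : Module.End K V} {S : Submodule K V} (h : Cl T S) {z : V} (hz : z ∈ S)
    (i : ℕ) : (T ^ i) z ∈ S := by
  have := h (X ^ i) z hz
  rwa [map_pow, aeval_X] at this

private theorem cl_T {T : Module.End K V} {S : Submodule K V} (h : Cl T S) {z : V} (hz : z ∈ S) :
    T z ∈ S := by
  have := cl_pow h hz 1
  rwa [pow_one] at this

private theorem van {T : Module.End K V} {u v : V} (h : ∀ j, q.h u ((T ^ j) v) = 0) (f : K[X]) :
    q.h u (aeval T f v) = 0 := by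
  induction f using Polynomial.induction_on' with
  | add p r hp hr => rw [map_add, LinearMap.add_apply, map_add, hp, hr, add_zero]
  | monomial n a =>
    rw [← C_mul_X_pow_eq_monomial, map_mul, aeval_C, map_pow, aeval_X, Module.End.mul_apply,
      Module.algebraMap_end_apply, map_smul, h, smul_zero]

private theorem adjpow (c : Ctx q G Gi) (i : ℕ) (x y : V) :
    q.h (((G + Gi) ^ i) x) y = q.h x (((G + Gi) ^ i) y) := by
  have := c.adjp (X ^ i) x y
  rwa [map_pow, aeval_X] at this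

private theorem iso2 (c : Ctx q G Gi) {u v : V} (h : ∀ j, q.h u (((G + Gi) ^ j) v) = 0) :
    ∀ z ∈ cs (G + Gi) u ⊔ cs (G + Gi) v, ∀ w ∈ cs (G + Gi) u ⊔ cs (G + Gi) v, q.h z w = 0 := by
  have key : ∀ (a b : V), (∀ f : K[X], q.h a (aeval (G + Gi) f b) = 0) →
      ∀ z ∈ cs (G + Gi) a, ∀ w ∈ cs (G + Gi) b, q.h z w = 0 := by
    rintro a b hab z ⟨f, rfl⟩ w ⟨g, rfl⟩
    show q.h (aeval (G + Gi) f a) (aeval (G + Gi) g b) = 0
    rw [c.adjp, ← Module.End.mul_apply, ← map_mul]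
    exact hab _
  have huv := key u v (van h)
  have hvu : ∀ z ∈ cs (G + Gi) v, ∀ w ∈ cs (G + Gi) u, q.h z w = 0 := by
    intro z hz w hw
    exact q.swap_zero (huv w hw z hz)
  have huu := key u u (fun f => c.altp f u)
  have hvv := key v v (fun f => c.altp f v)
  intro z hz w hw
  obtain ⟨a, ha, b, hb, rfl⟩ := Submodule.mem_sup.1 hz
  obtain ⟨a', ha', b', hb', rfl⟩ := Submodule.mem_sup.1 hw
  rw [q.add_left, map_add, map_add, huu a ha a' ha', huv a ha b' hb', hvu b hb a' ha',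
    hvv b hb b' hb', add_zero, add_zero]

private theorem Npow (c : Ctx q G Gi) (j : ℕ) (z : V) :
    ((G + Gi) ^ j) (G z + z) = G (((G + Gi) ^ j) z) + ((G + Gi) ^ j) z := by
  have := c.comm (X ^ j) z
  rw [map_pow, aeval_X] at this
  rw [map_add, this]

private theorem genN (c : Ctx q G Gi) {S : Submodule K V} (hS : Cl (G + Gi) S) {u v : V}
    (h : G u + u ∈ S) (h' : G v + v ∈ S) : ∀ z ∈ cs (G + Gi) u ⊔ cs (G + Gi) v, G z + z ∈ S := by
  have key : ∀ a : V, G a + a ∈ S → ∀ z ∈ cs (G + Gi) a, G z + z ∈ S := by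
    rintro a ha z ⟨f, rfl⟩
    show G (aeval (G + Gi) f a) + aeval (G + Gi) f a ∈ S
    rw [c.comm, ← map_add]
    exact hS f _ ha
  intro z hz
  obtain ⟨a, ha, b, hb, rfl⟩ := Submodule.mem_sup.1 hz
  rw [map_add, add_add_add_comm]
  exact S.add_mem (key u h a ha) (key v h' b hb)

private theorem genInv (c : Ctx q G Gi) {u v u' v' : V}
    (hu : G u + u ∈ cs (G + Gi) u' ⊔ cs (G + Gi) v') (hv : G v + v ∈ cs (G + Gi) u' ⊔ cs (G + Gi) v')
    (hu' : G u' + u' ∈ (cs (G + Gi) u ⊔ cs (G + Gi) v) ⊔ (cs (G + Gi) u' ⊔ cs (G + Gi) v'))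
    (hv' : G v' + v' ∈ (cs (G + Gi) u ⊔ cs (G + Gi) v) ⊔ (cs (G + Gi) u' ⊔ cs (G + Gi) v')) :
    ∀ x ∈ (cs (G + Gi) u ⊔ cs (G + Gi) v) ⊔ (cs (G + Gi) u' ⊔ cs (G + Gi) v'),
      G x ∈ (cs (G + Gi) u ⊔ cs (G + Gi) v) ⊔ (cs (G + Gi) u' ⊔ cs (G + Gi) v') := by
  set W := cs (G + Gi) u ⊔ cs (G + Gi) v with hW
  set W' := cs (G + Gi) u' ⊔ cs (G + Gi) v' with hW'
  have cW : Cl (G + Gi) W := cl_sup (cl_cs _ _) (cl_cs _ _)
  have cW' : Cl (G + Gi) W' := cl_sup (cl_cs _ _) (cl_cs _ _)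
  have cS : Cl (G + Gi) (W ⊔ W') := cl_sup cW cW'
  have h1 : ∀ z ∈ W, G z + z ∈ W ⊔ W' := fun z hz =>
    Submodule.mem_sup_right (genN c cW' hu hv z hz)
  have h2 : ∀ z ∈ W', G z + z ∈ W ⊔ W' := genN c cS hu' hv'
  intro z hz
  obtain ⟨a, ha, b, hb, rfl⟩ := Submodule.mem_sup.1 hz
  have h3 : G (a + b) = (G a + a) + (G b + b) + (a + b) := by
    have e1 := c.dbl a
    have e2 := c.dbl b
    rw [map_add]
    calc G a + G b = G a + G b + ((a + a) + (b + b)) := by rw [e1, e2, add_zero, add_zero]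
      _ = _ := by abel
  rw [h3]
  exact (W ⊔ W').add_mem ((W ⊔ W').add_mem (h1 a ha) (h2 b hb)) hz

private theorem cs_le {U : Submodule K V} (hG : Inv G Gi U) {u v : V} (hu : u ∈ U) (hv : v ∈ U) :
    cs (G + Gi) u ⊔ cs (G + Gi) v ≤ U := by
  refine sup_le ?_ ?_
  · rintro z ⟨f, rfl⟩
    exact hG.poly f hu
  · rintro z ⟨f, rfl⟩
    exact hG.poly f hv

private theorem pow_zero_of {T : Module.End K V} {m j : ℕ} (hmj : m ≤ j) {z : V}
    (h : (T ^ m) z = 0) : (T ^ j) z = 0 := by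
  obtain ⟨r, rfl⟩ := Nat.exists_eq_add_of_le' hmj
  rw [pow_add, Module.End.mul_apply, h, map_zero]

/-- `T = G + Gi`, `N z = G z + z`, `y` from `exB`.  `W = cs T x ⊔ cs T (N y)`, `W' = cs T (G y) ⊔ cs T (N x)`.
`(*)` `h (N y) (T ^ j x) = h y (T ^ (j + 1) x) + h y (N (T ^ j x)) = 0` for all `j` (`adjN`; the two values are equal, characteristic 2).
* isotropic: `h (f u) (g u) = 0` for all `u` (`adjp`, `altp`); `h (f (N y)) (g x) = h (N y) (f g x) = 0` by `(*)`;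
  `h (f (G y)) (g (N x)) = h (G y) (f g (N x))` and `h (G y) (T ^ j (N x)) = h (G y) (G (T ^ j x)) + h (G y) (T ^ j x) = h y (T ^ j x) +
  h (G y) (T ^ j x) = h (N y) (T ^ j x) = 0` by `(*)`;
* products: `h (G y) (T ^ j x) = h y (T ^ j x) + h (N y) (T ^ j x) = h y (T ^ j x) = δ (j, m - 1)`;
  `h (N x) (T ^ j (N y)) = h x (T ^ (j + 1) y) = δ (j + 1, m - 1)` (`hNN`, symmetry, `adjp`);
  `h (G y) (T ^ j (N y))` and `h (N x) (T ^ j x)` are `0` for `j ≥ m - 1` as `N T ^ (m - 1) = 0` on `U` (`hN`);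
* `nd`: `lemN` with `a = x`, `b = N y`, `a' = G y`, `b' = N x`, `ma = m`, `mb = m - 1`;
* `nd'`: `lemN` with `a = G y`, `b = N x`, `a' = x`, `b' = N y`, `ma = m`, `mb = m - 1`;
* `map`: `N (f x) = f (N x) ∈ W'`, `N (f (N y)) = f (G (T y)) = (f * X) (G y) ∈ W'`;
* `inv`: `G z = z + N z` for `z ∈ W`; `G (f (G y)) = f (G y) + f (N (G y))` and `N (G y) = G (N y) = N y + N (N y) = N y + T (G y)`;
  `G (f (N x)) = f (N x) + f (G (T x)) = f (N x) + (f * X) x + (f * X) (N x)`;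
* `ne`: `x ∈ W`. -/
theorem pairB [FiniteDimensional K V] (c : Ctx q G Gi) {U : Submodule K V} (hU : q.ND U)
    (hG : Inv G Gi U) {m : ℕ} (hm : 0 < m) (hT : ∀ z ∈ U, ((G + Gi) ^ m) z = 0)
    (hN : ∀ z ∈ U, G (((G + Gi) ^ (m - 1)) z) + ((G + Gi) ^ (m - 1)) z = 0) {x : V}
    (hx : x ∈ U) (h2 : ((G + Gi) ^ (m - 1)) x ≠ 0) :
    ∃ W W' : Submodule K V, W ≤ U ∧ W' ≤ U ∧ PP q G W W' := by
  obtain ⟨y, hy, hy1, hy2⟩ := exB c hU hG hm hx (hT x hx) (hN x hx) h2
  have hNx : G x + x ∈ U := U.add_mem (hG.1 x hx) hx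
  have hNy : G y + y ∈ U := U.add_mem (hG.1 y hy) hy
  have hGy : G y ∈ U := hG.1 y hy
  have hm1 : m - 1 + 1 = m := Nat.sub_add_cancel hm
  have two : ∀ a : K, a + a = 0 := fun a => by rw [← two_mul, c.two, zero_mul]
  -- `(*)`
  have st : ∀ j, q.h (G y + y) (((G + Gi) ^ j) x) = 0 := by
    intro j
    rw [c.adjN, map_add, hy2, ← Module.End.mul_apply, ← pow_succ', hy1]
    exact two _
  have kN : ∀ z ∈ U, ∀ j, m - 1 ≤ j → ((G + Gi) ^ j) (G z + z) = 0 := by
    intro z hz j hj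
    refine pow_zero_of hj ?_
    rw [Npow c]
    exact hN z hz
  have dec : G y = (G y + y) + y := by rw [add_assoc, c.dbl, add_zero]
  have p1 : ∀ j, q.h (G y) (((G + Gi) ^ j) x) = if j = m - 1 then 1 else 0 := by
    intro j
    rw [dec, q.add_left, st, zero_add, hy1]
  have p2 : ∀ j, q.h (G x + x) (((G + Gi) ^ j) (G y + y)) = if j + 1 = m - 1 then 1 else 0 := by
    intro j
    rw [Npow c, c.hNN, ← Module.End.mul_apply, ← pow_succ', ← adjpow c, c.symm, hy1]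
  have p3 : ∀ j, m ≤ j + 1 → q.h (G y) (((G + Gi) ^ j) (G y + y)) = 0 := by
    intro j hj
    rw [kN y hy j (by omega), map_zero]
  have p4 : ∀ j, m - 1 ≤ j → q.h (G x + x) (((G + Gi) ^ j) x) = 0 := by
    intro j hj
    rw [c.symm, adjpow c, kN x hx j hj, map_zero]
  have q1 : ∀ j, q.h x (((G + Gi) ^ j) (G y + y)) = 0 := by
    intro j
    rw [← adjpow c, c.symm, st]
  have q2 : ∀ j, q.h (G y) (((G + Gi) ^ j) (G x + x)) = 0 := by
    intro j
    rw [Npow c, map_add, c.iso, p1, hy1]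
    exact two _
  have hW : Cl (G + Gi) (cs (G + Gi) x ⊔ cs (G + Gi) (G y + y)) := cl_sup (cl_cs _ _) (cl_cs _ _)
  have hW' : Cl (G + Gi) (cs (G + Gi) (G y) ⊔ cs (G + Gi) (G x + x)) :=
    cl_sup (cl_cs _ _) (cl_cs _ _)
  have mx : x ∈ cs (G + Gi) x ⊔ cs (G + Gi) (G y + y) := Submodule.mem_sup_left (self_cs _ _)
  have mNy : G y + y ∈ cs (G + Gi) x ⊔ cs (G + Gi) (G y + y) :=
    Submodule.mem_sup_right (self_cs _ _)
  have mGy : G y ∈ cs (G + Gi) (G y) ⊔ cs (G + Gi) (G x + x) := Submodule.mem_sup_left (self_cs _ _)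
  have mNx : G x + x ∈ cs (G + Gi) (G y) ⊔ cs (G + Gi) (G x + x) :=
    Submodule.mem_sup_right (self_cs _ _)
  have commT : G ((G + Gi) y) = (G + Gi) (G y) := by
    have := c.comm X y
    rwa [aeval_X] at this
  have NNy : G (G y + y) + (G y + y) = (G + Gi) (G y) := by rw [c.nn, commT]
  have mNNy : G (G y + y) + (G y + y) ∈ cs (G + Gi) (G y) ⊔ cs (G + Gi) (G x + x) := by
    rw [NNy]
    exact cl_T hW' mGy
  have mNGy : G (G y) + G y ∈ (cs (G + Gi) x ⊔ cs (G + Gi) (G y + y)) ⊔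
      (cs (G + Gi) (G y) ⊔ cs (G + Gi) (G x + x)) := by
    have e : G (G y) + G y = (G y + y) + (G + Gi) (G y) := by
      rw [← NNy, map_add]
      have h3 := c.dbl (G y + y)
      calc G (G y) + G y = G (G y) + G y + ((G y + y) + (G y + y)) := by rw [h3, add_zero]
        _ = _ := by abel
    rw [e]
    exact Submodule.add_mem_sup mNy (cl_T hW' mGy)
  have mNNx : G (G x + x) + (G x + x) ∈ (cs (G + Gi) x ⊔ cs (G + Gi) (G y + y)) ⊔
      (cs (G + Gi) (G y) ⊔ cs (G + Gi) (G x + x)) := by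
    have e : G (G x + x) + (G x + x) = (G + Gi) x + (G + Gi) (G x + x) := by
      rw [c.nn]
      have h2 := Npow c 1 x
      rw [pow_one] at h2
      rw [h2]
      have h3 := c.dbl ((G + Gi) x)
      calc G ((G + Gi) x) = G ((G + Gi) x) + ((G + Gi) x + (G + Gi) x) := by rw [h3, add_zero]
        _ = _ := by abel
    rw [e]
    exact Submodule.add_mem_sup (cl_T hW mx) (cl_T hW' mNx)
  refine ⟨cs (G + Gi) x ⊔ cs (G + Gi) (G y + y), cs (G + Gi) (G y) ⊔ cs (G + Gi) (G x + x),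
    cs_le hG hx hNy, cs_le hG hGy hNx, ?_⟩
  refine
    { iso := iso2 c q1
      iso' := iso2 c q2
      nd := ?_
      nd' := ?_
      map := genN c hW' mNx mNNy
      inv := genInv c mNx mNNy mNGy mNNx
      ne := ?_ }
  · intro z hz h
    obtain ⟨_, ⟨f, rfl⟩, _, ⟨g, rfl⟩, rfl⟩ := Submodule.mem_sup.1 hz
    refine lemN (q := q) (G + Gi) (a := x) (b := G y + y) (a' := G y) (b' := G x + x) (ma := m)
      (mb := m - 1) hm (by omega) (by omega) (hT x hx) (kN y hy _ le_rfl) ?_ (fun h0 => ?_) p3 p4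
      f g (fun i => ?_) (fun i => ?_)
    · rw [p1, if_pos rfl]
      exact one_ne_zero
    · rw [p2, if_pos (by omega)]
      exact one_ne_zero
    · rw [← adjpow c]
      exact h _ (cl_pow hW' mGy i)
    · rw [← adjpow c]
      exact h _ (cl_pow hW' mNx i)
  · intro z hz h
    obtain ⟨_, ⟨f, rfl⟩, _, ⟨g, rfl⟩, rfl⟩ := Submodule.mem_sup.1 hz
    refine lemN (q := q) (G + Gi) (a := G y) (b := G x + x) (a' := x) (b' := G y + y) (ma := m)
      (mb := m - 1) hm (by omega) (by omega) (hT _ hGy) (kN x hx _ le_rfl) ?_ (fun h0 => ?_)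
      (fun j hj => ?_) (fun j hj => ?_) f g (fun i => ?_) (fun i => ?_)
    · rw [← adjpow c, c.symm, p1, if_pos rfl]
      exact one_ne_zero
    · rw [← adjpow c, c.symm, p2, if_pos (by omega)]
      exact one_ne_zero
    · rw [kN x hx j (by omega), map_zero]
    · rw [← adjpow c, kN y hy j hj, q.zero_left]
    · rw [← adjpow c, c.symm]
      exact h _ (cl_pow hW mx i)
    · rw [← adjpow c, c.symm]
      exact h _ (cl_pow hW mNy i)
  · intro h
    rw [h, Submodule.mem_bot] at mx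
    apply h2
    rw [mx, map_zero]

end ThS2
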