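import Pool.Agent.ThS2.Ctx

/-! # Module Prim: a primary component of `T` -/

namespace ThS2
open Module Polynomial ThS

variable {K V : Type*} [Field K] [AddCommGroup V] [Module K V] {q : AF K V} {G Gi : Module.End K V}

private theorem Prim_irr {U : Submodule K V} (hG : Inv G Gi U) :
    ∀ (n : ℕ) (f : K[X]), f.natDegree ≤ n → f ≠ 0 → ∀ x ∈ U, x ≠ 0 → aeval (G + Gi) f x = 0 →
      ∃ p : K[X], Irreducible p ∧ ∃ y ∈ U, y ≠ 0 ∧ aeval (G + Gi) p y = 0 := by
  intro n
  induction n with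
  | zero =>
    intro f hf hf0 x _ hx0 hfx
    exfalso
    have h1 : f = C (f.coeff 0) := eq_C_of_natDegree_le_zero hf
    rw [h1, aeval_C] at hfx
    have h2 : f.coeff 0 • x = 0 := hfx
    rcases smul_eq_zero.1 h2 with h3 | h3
    · rw [h3, C_0] at h1
      exact hf0 h1
    · exact hx0 h3
  | succ n ih =>
    intro f hf hf0 x hx hx0 hfx
    have hu : ¬ IsUnit f := by
      intro hu
      obtain ⟨c, hc, hcf⟩ := Polynomial.isUnit_iff.1 hu
      rw [← hcf, aeval_C] at hfx
      have h2 : c • x = 0 := hfx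
      rcases smul_eq_zero.1 h2 with h3 | h3
      · exact hc.ne_zero h3
      · exact hx0 h3
    obtain ⟨p, hp, g, rfl⟩ := WfDvdMonoid.exists_irreducible_factor hu hf0
    have hg0 : g ≠ 0 := right_ne_zero_of_mul hf0
    have hp0 : p ≠ 0 := hp.ne_zero
    by_cases hy : aeval (G + Gi) g x = 0
    · apply ih g _ hg0 x hx hx0 hy
      rw [natDegree_mul hp0 hg0] at hf
      have := hp.natDegree_pos
      omega
    · refine ⟨p, hp, aeval (G + Gi) g x, hG.poly g hx, hy, ?_⟩
      rw [map_mul] at hfx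
      exact hfx

/-- Let `T = G + Gi`.  There are an irreducible `p` and `y ∈ U`, `y ≠ 0`, with `p (T) y = 0`: take `x ≠ 0` in `U`, `f ≠ 0` of minimal degree with
`f (T) x = 0` (exists: the minimal polynomial of `T`), `f = p * f'` with `p` irreducible, `y = f' (T) x`.  Let `n = finrank K V` and
`U1 = U ⊓ ker (p (T) ^ n)`.  It contains `y`, is invariant (`Ctx.comm`).  Fitting's lemma for the restriction `S` of `p (T)` to `U`: `U` is the sum of
`ker (S ^ n)` and `range (S ^ n)` (`LinearMap.eventually_isCompl_ker_pow_range_pow`, or dimension count and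
`ker (S ^ n) = ker (S ^ (2 n))`).  Nondegenerate: let `x ∈ U1` be orthogonal to `U1`; any `u ∈ U` is `u1 + p (T) ^ n u'` with `u1 ∈ U1`,
`u' ∈ U`, `h x (p (T) ^ n u') = h (p (T) ^ n x) u' = 0` (`Ctx.adjp`), so `h x u = 0` and `x = 0` by `hU`.
`m` is minimal with `p (T) ^ m = 0` on `U1` (`m > 0` as `y ≠ 0`). -/
theorem prim [FiniteDimensional K V] (c : Ctx q G Gi) {U : Submodule K V} (hU : q.ND U)
    (hG : Inv G Gi U) (hne : U ≠ ⊥) : ∃ (p : K[X]) (m : ℕ) (U1 : Submodule K V), Irreducible p ∧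
      0 < m ∧ U1 ≤ U ∧ q.ND U1 ∧ Inv G Gi U1 ∧ (∀ x ∈ U1, aeval (G + Gi) (p ^ m) x = 0) ∧
      ∃ x ∈ U1, aeval (G + Gi) (p ^ (m - 1)) x ≠ 0 := by
  classical
  obtain ⟨x0, hx0, hx00⟩ := Submodule.exists_mem_ne_zero_of_ne_bot hne
  have hint : IsIntegral K (G + Gi : Module.End K V) := Algebra.IsIntegral.isIntegral _
  obtain ⟨p, hp, y, hyU, hy0, hpy⟩ := Prim_irr hG _ (minpoly K (G + Gi)) le_rfl
    (minpoly.ne_zero hint) x0 hx0 hx00 (by rw [minpoly.aeval]; rfl)
  set P : Module.End K V := aeval (G + Gi) p with hP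
  have hPpow : ∀ k, aeval (G + Gi) (p ^ k) = P ^ k := fun k => by rw [map_pow]
  have hPU : ∀ x ∈ U, P x ∈ U := fun x hx => hG.poly p hx
  set S : Module.End K U := P.restrict hPU with hS
  have hSpow : ∀ (k : ℕ) (u : U), (((S ^ k) u : U) : V) = (P ^ k) u := by
    intro k
    induction k with
    | zero => intro u; rfl
    | succ k ih =>
      intro u
      rw [pow_succ, pow_succ]
      show (((S ^ k) (S u) : U) : V) = (P ^ k) (P u)
      rw [ih]
      rfl
  obtain ⟨k, hk1, hk⟩ : ∃ k, 1 ≤ k ∧ IsCompl (LinearMap.ker (S ^ k)) (LinearMap.range (S ^ k)) := by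
    have h1 := (LinearMap.eventually_isCompl_ker_pow_range_pow S).and
      (Filter.eventually_ge_atTop 1)
    obtain ⟨k, h2, h3⟩ := h1.exists
    exact ⟨k, h3, h2⟩
  set U1 : Submodule K V := U ⊓ LinearMap.ker (P ^ k) with hU1
  have hmem : ∀ {x : V}, x ∈ U1 ↔ x ∈ U ∧ (P ^ k) x = 0 := fun {x} => by
    rw [hU1, Submodule.mem_inf, LinearMap.mem_ker]
  have hinv : Inv G Gi U1 := by
    apply c.inv_of
    intro x hx
    rw [hmem] at hx ⊢
    refine ⟨hG.1 x hx.1, ?_⟩
    have := c.comm (p ^ k) x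
    rw [hPpow] at this
    rw [← this, hx.2, map_zero]
  have hyU1 : y ∈ U1 := by
    rw [hmem]
    refine ⟨hyU, ?_⟩
    obtain ⟨j, rfl⟩ := Nat.exists_eq_add_of_le' hk1
    rw [pow_succ]
    show (P ^ j) (P y) = 0
    rw [hpy, map_zero]
  have hnd : q.ND U1 := by
    intro x hx hxo
    rw [hmem] at hx
    apply hU x hx.1
    intro u hu
    have h2 : (⟨u, hu⟩ : U) ∈ LinearMap.ker (S ^ k) ⊔ LinearMap.range (S ^ k) := by
      rw [hk.sup_eq_top]
      exact Submodule.mem_top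
    obtain ⟨u1, hu1, u2, ⟨u3, hu3⟩, hsum⟩ := Submodule.mem_sup.1 h2
    have h3 : (u1 : V) ∈ U1 := by
      rw [hmem]
      refine ⟨u1.2, ?_⟩
      rw [← hSpow, LinearMap.mem_ker.1 hu1]
      rfl
    have h4 : u = (u1 : V) + (P ^ k) (u3 : V) := by
      rw [← hSpow, hu3]
      have := congrArg Subtype.val hsum
      exact this.symm
    rw [h4, map_add, hxo _ h3, zero_add]
    have h5 := c.adjp (p ^ k) x (u3 : V)
    rw [hPpow, hx.2, q.zero_left] at h5
    exact h5.symm
  have hex : ∃ m, ∀ x ∈ U1, aeval (G + Gi) (p ^ m) x = 0 := ⟨k, fun x hx => by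
    rw [hPpow]
    exact (hmem.1 hx).2⟩
  have hpos : 0 < Nat.find hex := by
    rw [Nat.find_pos]
    intro h0
    have := h0 y hyU1
    rw [pow_zero, map_one] at this
    exact hy0 this
  refine ⟨p, Nat.find hex, U1, hp, hpos, inf_le_left, hnd, hinv, Nat.find_spec hex, ?_⟩
  have hmin := Nat.find_min hex (m := Nat.find hex - 1) (by omega)
  push Not at hmin
  exact hmin

end ThS2
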