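import Pool.Agent.ThS2.Prim
import Pool.Agent.ThS2.CycP
import Pool.Agent.ThS2.PairA
import Pool.Agent.ThS2.PairB

/-! # Module StepEx: existence of a dual pair -/

namespace ThS2
open Module Polynomial ThS

variable {K V : Type*} [Field K] [AddCommGroup V] [Module K V] {q : AF K V} {G Gi : Module.End K V}

/-- `p`, `m`, `U1` from `prim`, `T = G + Gi`, `N z = G z + z`.
Case 1: there is `x ∈ U1` with `h (N x) (p ^ (m - 1) (T) x) ≠ 0`: `cycP`.
Case 2: `h (N z) (p ^ (m - 1) (T) z) = 0` for all `z ∈ U1`.  Polarization (`z = x + y`): `h (N x) (P y) + h (N y) (P x) = 0` with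
`P = p ^ (m - 1) (T)`; `h (N y) (P x) = h y (P (T x + N x)) = h y (P (T x)) + h (P y) (N x)`, so `h y (T (P x)) = 0` for all `x, y ∈ U1` and
`T (P x) = 0` for all `x ∈ U1` (nondegenerate).  So `X * p ^ (m - 1)` and `p ^ m` kill `U1` (with `T`).  If `p` does not divide `X`, they have the greatest common
divisor `p ^ (m - 1)` (`X` and `p` are coprime), which kills `U1`, a contradiction to the last property of `prim`.  So `p ∣ X`, `p` and `X` are associated,
`p = C u * X` with `u ≠ 0`, and `T ^ m = 0` on `U1`, `T ^ (m - 1) x ≠ 0` for some `x ∈ U1`, and `h z (N (T ^ (m - 1) z)) = 0` for all `z ∈ U1` (symmetry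
and `Ctx.comm`, `adjp`).  If there is `x ∈ U1` with `N (T ^ (m - 1) x) ≠ 0`: `pairA` for `U1`; otherwise `pairB` for `U1`. -/
theorem step_ex [FiniteDimensional K V] (c : Ctx q G Gi) {U : Submodule K V} (hU : q.ND U)
    (hG : Inv G Gi U) (hne : U ≠ ⊥) : ∃ W W' : Submodule K V, W ≤ U ∧ W' ≤ U ∧ PP q G W W' := by
  obtain ⟨p, m, U1, hp, hm, hle, hN1, hG1, hk, x0, hx0, hx0'⟩ := prim c hU hG hne
  by_cases h1 : ∃ x ∈ U1, q.h (G x + x) (aeval (G + Gi) (p ^ (m - 1)) x) ≠ 0
  · obtain ⟨x, hx, h⟩ := h1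
    obtain ⟨W, W', hW, hW', hP⟩ := cycP c hG1 hp hm hx (hk x hx) h
    exact ⟨W, W', hW.trans hle, hW'.trans hle, hP⟩
  · push Not at h1
    have hT : ∀ x ∈ U1, (G + Gi) (aeval (G + Gi) (p ^ (m - 1)) x) = 0 := by
      intro x hx
      refine hN1 _ ?_ fun y hy => ?_
      · have := hG1.poly X (hG1.poly (p ^ (m - 1)) hx)
        rwa [aeval_X] at this
      · rw [c.symm]
        have e := h1 (x + y) (U1.add_mem hx hy)
        have ex := h1 x hx
        have ey := h1 y hy
        rw [map_add, map_add, show G x + G y + (x + y) = (G x + x) + (G y + y) by abel, q.add_left,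
          map_add, map_add, ex, ey, zero_add, add_zero] at e
        have e1 : q.h (G x + x) (aeval (G + Gi) (p ^ (m - 1)) y) =
            q.h y (G (aeval (G + Gi) (p ^ (m - 1)) x) + aeval (G + Gi) (p ^ (m - 1)) x) := by
          rw [c.symm, c.adjp, map_add, c.comm]
        rw [e1, c.adjN y, map_add (q.h y) ((G + Gi) _), add_comm, add_assoc, ← two_mul, c.two,
          zero_mul, add_zero] at e
        exact e
    have hpX : p ∣ X := by
      by_contra hn
      obtain ⟨a, b, hab⟩ := (hp.coprime_iff_not_dvd).2 hn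
      apply hx0'
      have e : aeval (G + Gi) ((a * p + b * X) * p ^ (m - 1)) x0 =
          aeval (G + Gi) (p ^ (m - 1)) x0 := by rw [hab, one_mul]
      rw [← e]
      have e2 : (a * p + b * X) * p ^ (m - 1) = a * p ^ m + b * (X * p ^ (m - 1)) := by
        have : p ^ m = p * p ^ (m - 1) := by
          rw [← pow_succ']
          congr 1
          omega
        rw [this]
        ring
      rw [e2, map_add, map_mul, map_mul, map_mul _ X, aeval_X, LinearMap.add_apply,
        Module.End.mul_apply, Module.End.mul_apply, Module.End.mul_apply, hk x0 hx0, hT x0 hx0,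
        map_zero, map_zero, add_zero]
    obtain ⟨u, hu⟩ := (Irreducible.dvd_irreducible_iff_associated hp irreducible_X).1 hpX
    obtain ⟨r, hr, hru⟩ := Polynomial.isUnit_iff.1 u.isUnit
    have hr0 : r ≠ 0 := hr.ne_zero
    rw [← hru] at hu
    have hpow : ∀ (n : ℕ) (z : V), ((G + Gi) ^ n) z = (r ^ n) • aeval (G + Gi) (p ^ n) z := by
      intro n z
      have : ((G + Gi) ^ n) = aeval (G + Gi) ((X : K[X]) ^ n) := by rw [map_pow, aeval_X]
      rw [this, ← hu, mul_pow, mul_comm, map_mul, ← C_pow, aeval_C, Module.End.mul_apply,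
        Module.algebraMap_end_apply]
    have hTm : ∀ z ∈ U1, ((G + Gi) ^ m) z = 0 := by
      intro z hz
      rw [hpow, hk z hz, smul_zero]
    have hQ : ∀ z ∈ U1, q.h z (G (((G + Gi) ^ (m - 1)) z) + ((G + Gi) ^ (m - 1)) z) = 0 := by
      intro z hz
      have e1 : q.h z (G (((G + Gi) ^ (m - 1)) z) + ((G + Gi) ^ (m - 1)) z) =
          q.h (G z + z) (((G + Gi) ^ (m - 1)) z) := by
        have : ((G + Gi) ^ (m - 1)) = aeval (G + Gi) ((X : K[X]) ^ (m - 1)) := by rw [map_pow, aeval_X]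
        rw [this, c.comm, ← map_add (aeval (G + Gi) (X ^ (m - 1))), ← c.adjp, c.symm]
      rw [e1, hpow, map_smul, h1 z hz, smul_zero]
    by_cases h3 : ∃ x ∈ U1, G (((G + Gi) ^ (m - 1)) x) + ((G + Gi) ^ (m - 1)) x ≠ 0
    · obtain ⟨x, hx, h⟩ := h3
      obtain ⟨W, W', hW, hW', hP⟩ := pairA c hN1 hG1 hm hTm hQ hx h
      exact ⟨W, W', hW.trans hle, hW'.trans hle, hP⟩
    · push Not at h3
      obtain ⟨W, W', hW, hW', hP⟩ := pairB c hN1 hG1 hm hTm h3 hx0 (by
        rw [hpow]
        exact smul_ne_zero (pow_ne_zero _ hr0) hx0')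
      exact ⟨W, W', hW.trans hle, hW'.trans hle, hP⟩

end ThS2
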